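import Pool.Agent.Helper30.SH.ZRow
import Pool.Agent.Helper76.RC.ExpF
import Pool.Agent.Helper99.RC.KcSin

/-!
# Project RC, SHARP cells: the kernel of the shift form from the powers of one unit function

`EU d k ph t = ee (-(d/2) + (k/2) sin (t + ph))`; `CS d k ph m n = fc (EU ^ (m+n)) ((n-m)/3)`.
-/

set_option autoImplicit false

open MeasureTheory Set Filter Topology

namespace Pool.Agent.Helper31.KcF

open Helper49.LT hiding sg
open Helper95.RC
open Pool.Agent.Helper99.RC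
open Helper31.Bes (J int_ee_sin_mul)
open Helper87.RC (BM)
open Helper56.RC (fc)
open Helper54.RC.Fast hiding ps
open Helper30.SH (coef_le)

/-- the unit function -/
noncomputable def EU (d k ph t : ℝ) : ℂ := ee (-(d / 2) + k / 2 * Real.sin (t + ph))

theorem EU_norm (d k ph t : ℝ) : ‖EU d k ph t‖ = 1 := norm_ee _

theorem EU_pow (d k ph t : ℝ) (q : ℕ) :
    EU d k ph t ^ q = ee ((q : ℝ) * (-(d / 2) + k / 2 * Real.sin (t + ph))) := by
  unfold EU
  rw [← Helper76.RC.TPoly.ee_nat]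

theorem EU_BM (d k ph : ℝ) (q : ℕ) : BM (fun t => EU d k ph t ^ q) 1 := by
  refine ⟨?_, fun t => ?_⟩
  · have : Continuous (fun t => EU d k ph t ^ q) := by
      unfold EU
      exact (continuous_ee.comp (by fun_prop)).pow q
    exact this.measurable
  · rw [norm_pow, EU_norm, one_pow]

/-- the coefficients of the powers -/
theorem fc_EU (d k ph : ℝ) (q : ℕ) (j : ℤ) : fc (fun t => EU d k ph t ^ q) j =
    ee (-((q : ℝ) * d / 2)) * ee ((j : ℝ) * ph) * (J j ((q : ℝ) * k / 2) : ℂ) := by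
  unfold fc
  have h1 := int_ee_sin_mul 1 le_rfl j ((q : ℝ) * k / 2) ph
  rw [mul_assoc (ee (-((q : ℝ) * d / 2))), ← h1]
  have e : ∀ t : ℝ, EU d k ph t ^ q * ee (-((j : ℝ) * t)) = ee (-((q : ℝ) * d / 2)) *
      ee ((q : ℝ) * k / 2 * Real.sin (((1 : ℕ) : ℝ) * t + ph) - (((1 : ℕ) : ℝ) * j) * t) := by
    intro t
    rw [EU_pow, ← ee_add, ← ee_add]
    congr 1
    push_cast
    rw [one_mul]
    ring
  simp_rw [e]
  rw [intervalIntegral.integral_const_mul]
  ring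

theorem CS_fc (d k ph : ℝ) {m n : ℤ} {q : ℕ} (hq : m + n = (q : ℤ)) (h : (3 : ℤ) ∣ n - m) :
    CS d k ph m n = fc (fun t => EU d k ph t ^ q) ((n - m) / 3) := by
  rw [fc_EU]
  unfold CS
  rw [if_pos h, hq]
  push_cast
  rfl

theorem CS_neg (d k ph : ℝ) (m n : ℤ) : CS d k ph (-m) (-n) = (starRingEnd ℂ) (CS d k ph m n) := by
  rw [← av_CS, ← av_CS, ← Helper95.SH.av_conj]
  congr 1
  funext φ
  rw [map_mul, ← ee_neg, ← ee_neg]
  congr 2
  · push_cast
    ring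
  · push_cast
    ring

/-- the exact kernel of the form -/
noncomputable def kk (d k ph : ℝ) (m n : ℤ) : ℂ :=
  if m + n = 0 then (if m = 0 then -(2 * (d : ℂ)) * Complex.I else 0)
  else ((4 / ((m + n : ℤ) : ℝ) : ℝ) : ℂ) * CS d k ph m n

theorem kk_re (d k ph : ℝ) (a b : ℤ → ℂ) (m n : ℤ) :
    (kk d k ph m n * a m * (starRingEnd ℂ) (b n)).re = ent d k ph a b m n +
      (if m = 0 then (if n = 0 then 2 * d * (a 0 * (starRingEnd ℂ) (b 0)).im else 0) else 0) := by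
  unfold kk ent
  by_cases h : m + n = 0
  · rw [if_pos h, h]
    by_cases hm : m = 0
    · have hn : n = 0 := by omega
      subst hm
      subst hn
      simp
      ring
    · rw [if_neg hm, if_neg hm]
      simp
  · rw [if_neg h]
    have e : ((4 / ((m + n : ℤ) : ℝ) : ℝ) : ℂ) * CS d k ph m n * a m * (starRingEnd ℂ) (b n) =
        ((4 / ((m + n : ℤ) : ℝ) : ℝ) : ℂ) * (a m * (starRingEnd ℂ) (b n) * CS d k ph m n) := by ring
    rw [e, Complex.re_ofReal_mul]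
    by_cases hm : m = 0
    · have hn : n ≠ 0 := by omega
      rw [if_pos hm, if_neg hn, add_zero]
    · rw [if_neg hm, add_zero]

/-- the dense rows -/
noncomputable def XR (d k ph : ℝ) (M : ℕ) (a b : ℤ → ℂ) (n : ℤ) : ℂ :=
  ∑ m ∈ Finset.Icc (-(M : ℤ)) M, kk d k ph m n * a m + ((1 / (n : ℝ) : ℝ) : ℂ) * b n

/-- **the shift form as a sum of row pairs** -/
theorem NF_rows (d k ph : ℝ) (M : ℕ) (a b : ℤ → ℂ) :
    NF (ps d k ph) M a b = ∑ n ∈ Finset.Icc (-(M : ℤ)) M, (XR d k ph M a b n * (starRingEnd ℂ) (b n)).re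
      + ∑ m ∈ Finset.Icc (-(M : ℤ)) M, ((((1 / (m : ℝ) : ℝ) : ℂ) * a m) * (starRingEnd ℂ) (a m)).re := by
  rw [NF_closed]
  unfold NS
  set S := Finset.Icc (-(M : ℤ)) M with hS
  have h0 : (0 : ℤ) ∈ S := by
    rw [hS, Finset.mem_Icc]
    omega
  have h1 : ∀ n ∈ S, (XR d k ph M a b n * (starRingEnd ℂ) (b n)).re =
      ∑ m ∈ S, ent d k ph a b m n + (if n = 0 then 2 * d * (a 0 * (starRingEnd ℂ) (b 0)).im else 0)
        + ‖b n‖ ^ 2 / (n : ℝ) := by
    intro n _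
    unfold XR
    rw [← hS, add_mul, Complex.add_re, Finset.sum_mul, Complex.re_sum]
    simp_rw [kk_re]
    rw [Finset.sum_add_distrib]
    congr 1
    · congr 1
      rw [Finset.sum_ite_eq' S 0]
      rw [if_pos h0]
    · rw [mul_assoc, Complex.mul_conj, ← Complex.ofReal_mul, Complex.ofReal_re, Complex.normSq_eq_norm_sq]
      ring
  rw [Finset.sum_congr rfl h1, Finset.sum_add_distrib, Finset.sum_add_distrib, Finset.sum_ite_eq' S 0, if_pos h0]
  have h2 : ∀ m : ℤ, ((((1 / (m : ℝ) : ℝ) : ℂ) * a m) * (starRingEnd ℂ) (a m)).re = ‖a m‖ ^ 2 / (m : ℝ) := by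
    intro m
    rw [mul_assoc, Complex.mul_conj, ← Complex.ofReal_mul, Complex.ofReal_re, Complex.normSq_eq_norm_sq]
    ring
  simp_rw [h2]
  rw [Finset.sum_comm]
  have h3 : ∑ m ∈ S, (‖a m‖ ^ 2 + ‖b m‖ ^ 2) / (m : ℝ) = ∑ m ∈ S, ‖a m‖ ^ 2 / (m : ℝ) + ∑ m ∈ S, ‖b m‖ ^ 2 / (m : ℝ) := by
    rw [← Finset.sum_add_distrib]
    refine Finset.sum_congr rfl fun m _ => ?_
    ring
  rw [h3]
  ring

/-! ## The table of the powers -/

/-- the exponent `(-kn (c + i s) ee t + kn (c - i s) ee (-t) - 2 i dn h)`, to be divided by `4 D h` -/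
def expU (b : ℕ) (dn kn c s : ℤ) (h : ℕ) : FP :=
  ofL b 1 [kn * c, 0, -(kn * c)] [-(kn * s), -(2 * dn * h), -(kn * s)]

/-- the range check of the exponent -/
def okX (b : ℕ) (dn kn c s : ℤ) (h : ℕ) : Bool :=
  rng b [kn * c, 0, -(kn * c)] && rng b [-(kn * s), -(2 * dn * h), -(kn * s)]

theorem V_expU (b : ℕ) (dn kn c s : ℤ) (h D : ℕ) (hh : 0 < h) (hD : 0 < D) (ph : ℝ)
    (hph : ee ph = -(((c : ℂ) + Complex.I * s) / h)) (ho : okX b dn kn c s h = true) (t : ℝ) :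
    Complex.exp (V b (expU b dn kn c s h) t / ((4 * D * h : ℕ) : ℂ)) =
      EU ((dn : ℝ) / D) ((kn : ℝ) / D) ph t := by
  unfold okX at ho
  rw [Bool.and_eq_true] at ho
  obtain ⟨-, h2⟩ := ofL_sound b 1 [kn * c, 0, -(kn * c)] [-(kn * s), -(2 * dn * h), -(kn * s)] rfl rfl ho.1 ho.2
  have h3 : V b (expU b dn kn c s h) t = Helper76.RC.TPoly.T 1 ⟨[kn * c, 0, -(kn * c)], [-(kn * s), -(2 * dn * h), -(kn * s)]⟩ t := h2 t
  rw [h3]
  unfold Helper76.RC.TPoly.T Helper76.RC.TPoly.TP.ev EU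
  simp only [Helper76.RC.TPoly.evr]
  have hph' : ee (-ph) = -(((c : ℂ) - Complex.I * s) / h) := by
    rw [ee_neg, hph]
    simp only [map_neg, map_div₀, map_add, map_mul, Complex.conj_I, map_intCast, map_natCast]
    ring
  have e0 : ee (-t) * ee t = 1 := by
    rw [← ee_add]
    simp [ee_zero]
  have hsin : ((Real.sin (t + ph) : ℝ) : ℂ) = (ee t * ee ph - ee (-t) * ee (-ph)) / (2 * Complex.I) := by
    rw [← ee_add, ← ee_add, eq_div_iff (mul_ne_zero two_ne_zero Complex.I_ne_zero)]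
    have : -t + -ph = -(t + ph) := by ring
    rw [this]
    generalize t + ph = x
    rw [ee_neg]
    apply Complex.ext
    · simp [ee_re, -Complex.ofReal_sin]
    · simp [ee_im, -Complex.ofReal_sin]
      ring
  have hh' : (h : ℂ) ≠ 0 := by exact_mod_cast hh.ne'
  have hD' : (D : ℂ) ≠ 0 := by exact_mod_cast hD.ne'
  have hI := Complex.I_mul_I
  have e1 : ee (-((dn : ℝ) / D / 2) + (kn : ℝ) / D / 2 * Real.sin (t + ph)) =
      Complex.exp ((-((dn : ℂ) / D / 2) + (kn : ℂ) / D / 2 * ((Real.sin (t + ph) : ℝ) : ℂ)) * Complex.I) := by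
    unfold ee
    push_cast
    rfl
  rw [e1, hsin, hph, hph']
  congr 1
  have e2 : ee (-(((1 : ℕ) : ℝ) * t)) = ee (-t) := by norm_num
  rw [e2]
  push_cast
  set E := ee t with hE
  set F := ee (-t) with hF
  have hI0 := Complex.I_ne_zero
  have hI2 : Complex.I ^ 2 = -1 := Complex.I_sq
  field_simp
  linear_combination (-4 * (kn : ℂ) * c * E - 4 * (kn : ℂ) * Complex.I * s * E - 8 * Complex.I * (dn : ℂ) * h) * e0

/-- parameters of the computation -/
structure KP where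
  b : ℕ
  r : ℕ
  s : ℕ
  sE : ℕ
  M : ℕ
  R : ℕ
  n : ℕ
  tau : ℕ
  ws : List ℕ

/-- the record: `d = dn / D`, `k = kn / D`, `ee ph = -(c + i sn) / h` -/
structure KD where
  dn : ℤ
  kn : ℤ
  D : ℕ
  c : ℤ
  sn : ℤ
  h : ℕ

/-- `E` -/
def yU (P : KP) (K : KD) : PF :=
  ⟨Helper76.RC.ExpF.expF P.b P.sE P.M (Nat.pow 2 P.s) (4 * K.D * K.h) P.n (expU P.b K.dn K.kn K.c K.sn K.h),
    21 * P.R + P.tau⟩

/-- the check of `E` -/
def okU (P : KP) (K : KD) : Bool :=
  okX P.b K.dn K.kn K.c K.sn K.h &&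
    Helper76.RC.ExpF.okE P.b P.r P.sE P.M (Nat.pow 2 P.s) (4 * K.D * K.h) P.R P.n P.tau
      (expU P.b K.dn K.kn K.c K.sn K.h) &&
    (Nat.ble P.r (Nat.succ P.b) && Nat.ble P.s P.b && Nat.ble (Nat.succ (Nat.pow 2 P.s)) (Nat.pow 2 P.b)) &&
    (Nat.ble 1 K.D && Nat.ble 1 K.h)

theorem yU_AP (P : KP) (K : KD) (ph : ℝ) (hph : ee ph = -(((K.c : ℂ) + Complex.I * K.sn) / K.h))
    (ho : okU P K = true) : AP P.b P.s (yU P K) (fun t => EU ((K.dn : ℝ) / K.D) ((K.kn : ℝ) / K.D) ph t ^ 1) := by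
  unfold okU at ho
  simp only [Bool.and_eq_true] at ho
  obtain ⟨⟨⟨h1, h2⟩, ⟨⟨h3, h4⟩, h5⟩⟩, h6, h7⟩ := ho
  have h6 : 0 < K.D := Nat.le_of_ble_eq_true h6
  have h7 : 0 < K.h := Nat.le_of_ble_eq_true h7
  obtain ⟨w1, -, w3⟩ := Helper76.RC.ExpF.expF_sound _ _ _ _ _ _ _ _ _ _ h2
  refine ⟨w1, fun t => ?_⟩
  have w4 := w3 t
  rw [V_expU P.b K.dn K.kn K.c K.sn K.h K.D h7 h6 ph hph h1 t] at w4
  show ‖V P.b _ t - (2 ^ P.s : ℂ) * (EU _ _ ph t ^ 1)‖ ≤ ((21 * P.R + P.tau : ℕ) : ℝ)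
  rw [pow_one]
  have e : (((Nat.pow 2 P.s : ℕ)) : ℂ) = 2 ^ P.s := by
    show (((2 ^ P.s : ℕ)) : ℂ) = 2 ^ P.s
    push_cast
    rfl
  rw [e] at w4
  exact w4

/-- `1` -/
def oneU (P : KP) : PF := ⟨Helper76.RC.ExpF.cst P.b 0 (Nat.pow 2 P.s), 0⟩

/-- the table `[E^Q, ..., E, 1]` -/
def tabU (P : KP) (K : KD) : Option (List PF) := chain P.b P.s P.r (yU P K) P.ws (oneU P) []

theorem tabU_sound (P : KP) (K : KD) (ph : ℝ) (hph : ee ph = -(((K.c : ℂ) + Complex.I * K.sn) / K.h))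
    (ho : okU P K = true) (res : List PF) (hres : tabU P K = some res) (q : ℕ) (p : PF)
    (hp : res.reverse[q]? = some p) :
    AP P.b P.s p (fun t => EU ((K.dn : ℝ) / K.D) ((K.kn : ℝ) / K.D) ph t ^ q) := by
  have hy := yU_AP P K ph hph ho
  unfold okU at ho
  simp only [Bool.and_eq_true] at ho
  obtain ⟨⟨⟨-, -⟩, ⟨⟨h3, h4⟩, h5⟩⟩, -, -⟩ := ho
  have h3 : P.r ≤ P.b + 1 := Nat.le_of_ble_eq_true h3
  have h4 : P.s ≤ P.b := Nat.le_of_ble_eq_true h4
  have h5 : 2 ^ P.s < 2 ^ P.b := Nat.le_of_ble_eq_true h5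
  have h1 : AP P.b P.s (oneU P) (fun t => EU ((K.dn : ℝ) / K.D) ((K.kn : ℝ) / K.D) ph t ^ 0) := by
    obtain ⟨c1, c2⟩ := Helper76.RC.ExpF.cst_sound P.b 0 (2 ^ P.s) h5
    refine ⟨c1, fun t => ?_⟩
    show ‖V P.b (Helper76.RC.ExpF.cst P.b 0 (2 ^ P.s)) t - (2 ^ P.s : ℂ) * (EU _ _ ph t ^ 0)‖ ≤ ((0 : ℕ) : ℝ)
    rw [c2]
    simp
  have h := chain_sound P.b P.s P.r h3 h4 (fun t => EU ((K.dn : ℝ) / K.D) ((K.kn : ℝ) / K.D) ph t)
    (fun t => EU_norm _ _ _ _) 1 (yU P K) hy P.ws 0 (oneU P) [] res (by simpa using h1) (by simp) hres q p hp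
  simpa using h

/-! ## Digits -/

/-- digit `k` as an integer -/
def dgI (b k X : ℕ) : ℤ := Int.subNatNat (dg b k X) (Nat.pow 2 b)

/-- the coefficient of the frequency `u - v` in a component -/
def g2 (b N X u v : ℕ) : ℤ :=
  bif Nat.ble v (Nat.add N u) then
    (bif Nat.ble (Nat.sub (Nat.add N u) v) (Nat.mul 2 N) then dgI b (Nat.sub (Nat.add N u) v) X else 0) else 0

theorem g2_cf (b : ℕ) (z : FP) (u v : ℕ) : Helper30.SH.cf b z ((u : ℤ) - v) =
    (g2 b z.N z.x u v : ℂ) + Complex.I * (g2 b z.N z.y u v : ℂ) := by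
  unfold Helper30.SH.cf g2
  have e1 : ∀ X k : ℕ, ((dgI b k X : ℤ) : ℂ) = (dg b k X : ℂ) - 2 ^ b := by
    intro X k
    unfold dgI
    rw [Int.subNatNat_eq_coe]
    show (((dg b k X : ℤ) - ((2 ^ b : ℕ) : ℤ) : ℤ) : ℂ) = _
    push_cast
    rfl
  by_cases h : v ≤ z.N + u ∧ z.N + u - v ≤ 2 * z.N
  · obtain ⟨h1, h2⟩ := h
    have h3 : ((u : ℤ) - v) ∈ Finset.Icc (-(z.N : ℤ)) z.N := by
      rw [Finset.mem_Icc]
      omega
    have h4 : ((u : ℤ) - v + z.N).toNat = z.N + u - v := by omega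
    have b1 : Nat.ble v (Nat.add z.N u) = true := Nat.ble_eq_true_of_le h1
    have b2 : Nat.ble (Nat.sub (Nat.add z.N u) v) (Nat.mul 2 z.N) = true := Nat.ble_eq_true_of_le h2
    rw [if_pos h3, h4, b1, b2, cond_true, cond_true, cond_true, cond_true]
    show cc b z (z.N + u - v) = ((dgI b (z.N + u - v) z.x : ℤ) : ℂ) + Complex.I * ((dgI b (z.N + u - v) z.y : ℤ) : ℂ)
    rw [e1, e1]
    rfl
  · have h3 : ((u : ℤ) - v) ∉ Finset.Icc (-(z.N : ℤ)) z.N := by
      rw [Finset.mem_Icc]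
      omega
    rw [if_neg h3]
    rcases not_and_or.1 h with h1 | h1
    · have b1 : Nat.ble v (Nat.add z.N u) = false := by
        rw [Bool.eq_false_iff]
        exact fun h5 => h1 (Nat.le_of_ble_eq_true h5)
      rw [b1]
      simp
    · have b2 : Nat.ble (Nat.sub (Nat.add z.N u) v) (Nat.mul 2 z.N) = false := by
        rw [Bool.eq_false_iff]
        exact fun h5 => h1 (Nat.le_of_ble_eq_true h5)
      rw [b2]
      cases Nat.ble v (Nat.add z.N u) <;> simp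

/-- access to a list -/
def nthP : List PF → ℕ → PF
  | [], _ => ⟨⟨0, 0, 0⟩, 0⟩
  | a :: _, 0 => a
  | _ :: l, n + 1 => nthP l n

/-- access to a list of lists -/
def nthL : List (List PF) → ℕ → List PF
  | [], _ => []
  | a :: _, 0 => a
  | _ :: l, n + 1 => nthL l n

/-- the suffixes with step `12` -/
def sfx : ℕ → List PF → List (List PF)
  | 0, _ => []
  | n + 1, l => l :: sfx n (l.drop 12)

/-- access through the suffixes -/
def nth (L : List (List PF)) (q : ℕ) : PF := nthP (nthL L (Nat.div q 12)) (Nat.mod q 12)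

theorem nthP_drop : ∀ (l : List PF) (k i : ℕ), nthP (l.drop k) i = nthP l (k + i)
  | [], k, i => by simp [nthP]
  | a :: l, 0, i => by simp
  | a :: l, k + 1, i => by
    rw [List.drop_succ_cons, nthP_drop l k i]
    have : k + 1 + i = (k + i) + 1 := by ring
    rw [this]
    rfl

theorem nthL_sfx : ∀ (n : ℕ) (l : List PF) (a : ℕ), a < n → nthL (sfx n l) a = l.drop (12 * a)
  | 0, l, a, h => by omega
  | n + 1, l, 0, h => by simp [sfx, nthL]
  | n + 1, l, a + 1, h => by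
    show nthL (sfx n (l.drop 12)) a = _
    rw [nthL_sfx n _ a (by omega), List.drop_drop]
    congr 1
    ring

theorem nth_eq (n : ℕ) (l : List PF) (q : ℕ) (h : q < 12 * n) : nth (sfx n l) q = nthP l q := by
  unfold nth
  show nthP (nthL (sfx n l) (q / 12)) (q % 12) = _
  rw [nthL_sfx n l (q / 12) (by omega), nthP_drop]
  congr 1
  omega

theorem nthP_get : ∀ (l : List PF) (q : ℕ), q < l.length → l[q]? = some (nthP l q)
  | [], q, h => by simp at h
  | a :: l, 0, h => by simp [nthP]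
  | a :: l, q + 1, h => by
    rw [List.getElem?_cons_succ, nthP_get l q (by simpa using h)]
    rfl

/-- `⌊4 x / q⌋` -/
def q4 (x : ℤ) (q : ℕ) : ℤ := Int.ediv (Int.mul 4 x) (Int.ofNat q)

theorem q4_le (x : ℤ) {q : ℕ} (hq : 0 < q) : |(q4 x q : ℝ) - 4 * x / q| ≤ 1 := by
  unfold q4
  show |(((4 * x / (q : ℤ) : ℤ)) : ℝ) - 4 * x / q| ≤ 1
  have h1 := Int.emod_add_mul_ediv (4 * x) q
  have h2 : 0 ≤ (4 * x) % (q : ℤ) := Int.emod_nonneg _ (by omega)
  have h3 : (4 * x) % (q : ℤ) < q := Int.emod_lt_of_pos _ (by omega)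
  set a := (4 * x) % (q : ℤ) with ha
  set c := 4 * x / (q : ℤ) with hc
  have h4 : (a : ℝ) + q * c = 4 * x := by exact_mod_cast h1
  have hq' : (0 : ℝ) < q := by exact_mod_cast hq
  have h5 : (c : ℝ) - 4 * x / q = -(a / q) := by
    rw [← h4]
    field_simp
    ring
  rw [h5, abs_neg, abs_of_nonneg (by positivity), div_le_one hq']
  exact_mod_cast h3.le

/-- real part of the kernel, offset `W` of both indices -/
def kre (b W : ℕ) (L : List (List PF)) (m n : ℕ) : ℤ :=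
  bif Nat.beq (Nat.add m n) (Nat.mul 2 W) then 0 else
    bif Nat.beq (Nat.mod m 3) (Nat.mod n 3) then
      bif Nat.ble (Nat.mul 2 W) (Nat.add m n) then
        q4 (g2 b (nth L (Nat.sub (Nat.add m n) (Nat.mul 2 W))).z.N (nth L (Nat.sub (Nat.add m n) (Nat.mul 2 W))).z.x
          (Nat.div (Nat.sub n m) 3) (Nat.div (Nat.sub m n) 3)) (Nat.sub (Nat.add m n) (Nat.mul 2 W))
      else Int.neg
        (q4 (g2 b (nth L (Nat.sub (Nat.mul 2 W) (Nat.add m n))).z.N (nth L (Nat.sub (Nat.mul 2 W) (Nat.add m n))).z.x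
          (Nat.div (Nat.sub m n) 3) (Nat.div (Nat.sub n m) 3)) (Nat.sub (Nat.mul 2 W) (Nat.add m n)))
    else 0

/-- imaginary part of the kernel -/
def kim (b W : ℕ) (d2 : ℤ) (L : List (List PF)) (m n : ℕ) : ℤ :=
  bif Nat.beq (Nat.add m n) (Nat.mul 2 W) then (bif Nat.beq m W then d2 else 0) else
    bif Nat.beq (Nat.mod m 3) (Nat.mod n 3) then
      bif Nat.ble (Nat.mul 2 W) (Nat.add m n) then
        q4 (g2 b (nth L (Nat.sub (Nat.add m n) (Nat.mul 2 W))).z.N (nth L (Nat.sub (Nat.add m n) (Nat.mul 2 W))).z.y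
          (Nat.div (Nat.sub n m) 3) (Nat.div (Nat.sub m n) 3)) (Nat.sub (Nat.add m n) (Nat.mul 2 W))
      else
        (q4 (g2 b (nth L (Nat.sub (Nat.mul 2 W) (Nat.add m n))).z.N (nth L (Nat.sub (Nat.mul 2 W) (Nat.add m n))).z.y
          (Nat.div (Nat.sub m n) 3) (Nat.div (Nat.sub n m) 3)) (Nat.sub (Nat.mul 2 W) (Nat.add m n)))
    else 0

/-- the error check: `4 er + 2 q ≤ e q` -/
def okEr (e : ℕ) : ℕ → List PF → Bool
  | _, [] => true
  | q, p :: l => bif Nat.ble (Nat.add (Nat.mul 4 p.er) (Nat.mul 2 q)) (Nat.mul e q) then okEr e (Nat.succ q) l else false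

theorem okEr_sound (e : ℕ) : ∀ (l : List PF) (q i : ℕ) (p : PF), okEr e q l = true → l[i]? = some p →
    4 * p.er + 2 * (q + i) ≤ e * (q + i)
  | [], q, i, p, _, h => by simp at h
  | a :: l, q, i, p, ho, h => by
    unfold okEr at ho
    cases h1 : Nat.ble (Nat.add (Nat.mul 4 a.er) (Nat.mul 2 q)) (Nat.mul e q) with
    | false => rw [h1] at ho; simp at ho
    | true =>
      rw [h1] at ho
      cases i with
      | zero =>
        simp only [List.getElem?_cons_zero, Option.some.injEq] at h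
        rw [← h]
        exact Nat.le_of_ble_eq_true h1
      | succ i =>
        rw [List.getElem?_cons_succ] at h
        have := okEr_sound e l (q + 1) i p ho h
        have e1 : q + 1 + i = q + (i + 1) := by ring
        rw [e1] at this
        exact this

/-- `-2 d` at the scale `2 ^ s` -/
def d2U (P : KP) (K : KD) : ℤ := Int.neg (Int.ediv (Int.mul (Int.mul 2 K.dn) (Int.ofNat (Nat.pow 2 P.s))) (Int.ofNat K.D))

theorem ent_err (x y : ℤ) {q : ℕ} (hq : 0 < q) (C : ℂ) (er e : ℕ) (S : ℂ)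
    (h : ‖((x : ℂ) + Complex.I * y) - S * C‖ ≤ er) (he : 4 * er + 2 * q ≤ e * q) :
    ‖((q4 x q : ℂ) + Complex.I * (q4 y q : ℂ)) - S * (((4 / (q : ℝ) : ℝ) : ℂ) * C)‖ ≤ e := by
  have hq' : (0 : ℝ) < q := by exact_mod_cast hq
  have h1 := q4_le x hq
  have h2 := q4_le y hq
  have e1 : ((q4 x q : ℂ) + Complex.I * (q4 y q : ℂ)) - S * (((4 / (q : ℝ) : ℝ) : ℂ) * C) =
      ((((q4 x q : ℝ) - 4 * x / q : ℝ) : ℂ) + Complex.I * (((q4 y q : ℝ) - 4 * y / q : ℝ) : ℂ)) +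
        ((4 / (q : ℝ) : ℝ) : ℂ) * (((x : ℂ) + Complex.I * y) - S * C) := by
    push_cast
    ring
  rw [e1]
  refine (norm_add_le _ _).trans ?_
  have h3 : ‖(((q4 x q : ℝ) - 4 * x / q : ℝ) : ℂ) + Complex.I * (((q4 y q : ℝ) - 4 * y / q : ℝ) : ℂ)‖ ≤ 2 := by
    refine (norm_add_le _ _).trans ?_
    rw [norm_mul, Complex.norm_I, one_mul, Complex.norm_real, Complex.norm_real, Real.norm_eq_abs, Real.norm_eq_abs]
    linarith
  have h4 : ‖((4 / (q : ℝ) : ℝ) : ℂ) * (((x : ℂ) + Complex.I * y) - S * C)‖ ≤ 4 * er / q := by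
    rw [norm_mul, Complex.norm_real, Real.norm_of_nonneg (by positivity)]
    calc 4 / (q : ℝ) * ‖((x : ℂ) + Complex.I * y) - S * C‖ ≤ 4 / (q : ℝ) * er := by gcongr
      _ = 4 * er / q := by ring
  have h5 : (4 : ℝ) * er / q + 2 ≤ e := by
    rw [div_add' _ _ _ hq'.ne', div_le_iff₀ hq']
    exact_mod_cast he
  linarith

theorem nbeq (x y : ℕ) : Nat.beq x y = true ↔ x = y := by rw [Nat.beq_eq]

/-- the data of the computed table -/
structure Tab (P : KP) (K : KD) (W e : ℕ) (L : List (List PF)) (Q : ℕ) (ph : ℝ) : Prop where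
  ap : ∀ q, q ≤ Q → AP P.b P.s (nth L q) (fun t => EU ((K.dn : ℝ) / K.D) ((K.kn : ℝ) / K.D) ph t ^ q)
  er : ∀ q, q ≤ Q → 4 * (nth L q).er + 2 * q ≤ e * q
  D : 0 < K.D
  e2 : 2 ≤ e
  hd : K.dn.natAbs ≤ 2 * K.D
  hb : 4 * 2 ^ P.s + e < 2 ^ P.b

/-- **the entries of the kernel** -/
theorem ker_err {P : KP} {K : KD} {W e : ℕ} {L : List (List PF)} {Q : ℕ} {ph : ℝ} (T : Tab P K W e L Q ph)
    {m' n' : ℕ} {m n : ℤ} (hm : m = (m' : ℤ) - W) (hn : n = (n' : ℤ) - W) (hQ : |m + n| ≤ (Q : ℤ)) :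
    ‖((kre P.b W L m' n' : ℂ) + Complex.I * (kim P.b W (d2U P K) L m' n' : ℂ)) -
      (2 ^ P.s : ℂ) * kk ((K.dn : ℝ) / K.D) ((K.kn : ℝ) / K.D) ph m n‖ ≤ e := by
  set d : ℝ := (K.dn : ℝ) / K.D with hd
  set k : ℝ := (K.kn : ℝ) / K.D with hk
  have he0 : (0 : ℝ) ≤ e := Nat.cast_nonneg e
  have main : ∀ (q u v : ℕ) (m n : ℤ), 0 < q → q ≤ Q → m + n = (q : ℤ) → n - m = 3 * ((u : ℤ) - v) →
      ‖((q4 (g2 P.b (nth L q).z.N (nth L q).z.x u v) q : ℂ) +
        Complex.I * (q4 (g2 P.b (nth L q).z.N (nth L q).z.y u v) q : ℂ)) -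
        (2 ^ P.s : ℂ) * (((4 / (q : ℝ) : ℝ) : ℂ) * CS d k ph m n)‖ ≤ e := by
    intro q u v m n hq0 hqQ hmn huv
    refine ent_err _ _ hq0 _ (nth L q).er e _ ?_ (T.er q hqQ)
    have h3 : (3 : ℤ) ∣ n - m := ⟨_, huv⟩
    have hj : (n - m) / 3 = (u : ℤ) - v := by omega
    have h4 := coef_le (EU_BM d k ph q) (T.ap q hqQ) ((u : ℤ) - v)
    have h5 := CS_fc d k ph hmn h3
    rw [hj] at h5
    rw [← h5, g2_cf] at h4
    have hs : (0 : ℝ) < 2 ^ P.s := by positivity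
    set X := ((g2 P.b (nth L q).z.N (nth L q).z.x u v : ℂ) +
      Complex.I * (g2 P.b (nth L q).z.N (nth L q).z.y u v : ℂ)) with hX
    have h2 : (2 ^ P.s : ℂ) ≠ 0 := pow_ne_zero _ two_ne_zero
    have e1 : X - (2 ^ P.s : ℂ) * CS d k ph m n = -(2 ^ P.s : ℂ) * (CS d k ph m n - X / 2 ^ P.s) := by
      field_simp
      ring
    rw [e1, norm_mul, norm_neg, norm_pow, Complex.norm_ofNat]
    calc (2 : ℝ) ^ P.s * ‖CS d k ph m n - X / 2 ^ P.s‖ ≤ 2 ^ P.s * ((nth L q).er / 2 ^ P.s) := by gcongr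
      _ = (nth L q).er := by field_simp
  unfold kre kim kk
  by_cases h0 : m' + n' = 2 * W
  · have b0 : Nat.beq (Nat.add m' n') (Nat.mul 2 W) = true := (nbeq _ _).2 h0
    have h1 : m + n = 0 := by omega
    rw [b0, if_pos h1]
    by_cases h2 : m' = W
    · have b2 : Nat.beq m' W = true := (nbeq _ _).2 h2
      have h3 : m = 0 := by omega
      rw [b2, if_pos h3]
      simp only [cond_true]
      have hD : (0 : ℝ) < K.D := by exact_mod_cast T.D
      have k1 : |((Int.ediv (Int.mul (Int.mul 2 K.dn) (Int.ofNat (Nat.pow 2 P.s))) (Int.ofNat K.D) : ℤ) : ℝ) -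
          2 * K.dn * 2 ^ P.s / K.D| ≤ 1 := by
        show |((2 * K.dn * ((2 ^ P.s : ℕ) : ℤ) / (K.D : ℤ) : ℤ) : ℝ) - 2 * K.dn * 2 ^ P.s / K.D| ≤ 1
        have h1 := Int.emod_add_mul_ediv (2 * K.dn * ((2 ^ P.s : ℕ) : ℤ)) K.D
        have h2 : 0 ≤ (2 * K.dn * ((2 ^ P.s : ℕ) : ℤ)) % (K.D : ℤ) := Int.emod_nonneg _ (by have := T.D; omega)
        have h3 : (2 * K.dn * ((2 ^ P.s : ℕ) : ℤ)) % (K.D : ℤ) < K.D := Int.emod_lt_of_pos _ (by have := T.D; omega)
        set a := (2 * K.dn * ((2 ^ P.s : ℕ) : ℤ)) % (K.D : ℤ) with ha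
        set c := 2 * K.dn * ((2 ^ P.s : ℕ) : ℤ) / (K.D : ℤ) with hc
        have h4 : (a : ℝ) + K.D * c = 2 * K.dn * 2 ^ P.s := by exact_mod_cast h1
        have h5 : (c : ℝ) - 2 * K.dn * 2 ^ P.s / K.D = -(a / K.D) := by
          rw [← h4]
          field_simp
          ring
        rw [h5, abs_neg, abs_of_nonneg (by positivity), div_le_one hD]
        exact_mod_cast h3.le
      set G := Int.ediv (Int.mul (Int.mul 2 K.dn) (Int.ofNat (Nat.pow 2 P.s))) (Int.ofNat K.D) with hG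
      have e1 : ((0 : ℤ) : ℂ) + Complex.I * ((d2U P K : ℤ) : ℂ) - (2 ^ P.s : ℂ) * (-(2 * (d : ℂ)) * Complex.I) =
          Complex.I * ((-((G : ℝ) - 2 * K.dn * 2 ^ P.s / K.D) : ℝ) : ℂ) := by
        have : d2U P K = -G := rfl
        rw [this, hd]
        push_cast
        ring
      rw [e1, norm_mul, Complex.norm_I, one_mul, Complex.norm_real, Real.norm_eq_abs, abs_neg]
      refine k1.trans ?_
      have := T.e2
      have : (2 : ℝ) ≤ e := by exact_mod_cast this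
      linarith
    · have b2 : Nat.beq m' W = false := by
        rw [Bool.eq_false_iff]
        exact fun h => h2 ((nbeq _ _).1 h)
      have h3 : m ≠ 0 := by omega
      rw [b2, if_neg h3]
      simp
  · have b0 : Nat.beq (Nat.add m' n') (Nat.mul 2 W) = false := by
      rw [Bool.eq_false_iff]
      exact fun h => h0 ((nbeq _ _).1 h)
    have h1 : m + n ≠ 0 := by omega
    rw [b0, if_neg h1]
    simp only [cond_false]
    by_cases h2 : m' % 3 = n' % 3
    · have b2 : Nat.beq (Nat.mod m' 3) (Nat.mod n' 3) = true := (nbeq _ _).2 h2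
      rw [b2]
      simp only [cond_true]
      by_cases h3 : 2 * W ≤ m' + n'
      · have b3 : Nat.ble (Nat.mul 2 W) (Nat.add m' n') = true := Nat.ble_eq_true_of_le h3
        rw [b3]
        simp only [cond_true]
        have h4 : m + n = ((m' + n' - 2 * W : ℕ) : ℤ) := by omega
        have h5 := main (m' + n' - 2 * W) ((n' - m') / 3) ((m' - n') / 3) m n (by omega)
          (by have := abs_le.1 hQ; omega) h4 (by omega)
        rw [h4, Int.cast_natCast]
        exact h5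
      · have b3 : Nat.ble (Nat.mul 2 W) (Nat.add m' n') = false := by
          rw [Bool.eq_false_iff]
          exact fun h => h3 (Nat.le_of_ble_eq_true h)
        rw [b3]
        simp only [cond_false]
        have h4 : -m + -n = ((2 * W - (m' + n') : ℕ) : ℤ) := by omega
        have h5 := main (2 * W - (m' + n')) ((m' - n') / 3) ((n' - m') / 3) (-m) (-n) (by omega)
          (by have := abs_le.1 hQ; omega) h4 (by omega)
        have h6 : m + n = -((2 * W - (m' + n') : ℕ) : ℤ) := by omega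
        rw [CS_neg] at h5
        rw [h6]
        set q := 2 * W - (m' + n') with hq
        have e1 : (Nat.sub (Nat.mul 2 W) (Nat.add m' n')) = q := rfl
        have e2 : Nat.div (Nat.sub m' n') 3 = (m' - n') / 3 := rfl
        have e3 : Nat.div (Nat.sub n' m') 3 = (n' - m') / 3 := rfl
        rw [e1, e2, e3]
        set X := q4 (g2 P.b (nth L q).z.N (nth L q).z.x ((m' - n') / 3) ((n' - m') / 3)) q
        set Y := q4 (g2 P.b (nth L q).z.N (nth L q).z.y ((m' - n') / 3) ((n' - m') / 3)) q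
        have e4 : ((Int.neg X : ℤ) : ℂ) = -(X : ℂ) := by
          have : Int.neg X = -X := rfl
          rw [this]
          push_cast
          rfl
        have e5 : (((Int.neg X : ℤ) : ℂ) + Complex.I * (Y : ℂ)) - (2 ^ P.s : ℂ) *
            (((4 / ((-(q : ℤ) : ℤ) : ℝ) : ℝ) : ℂ) * CS d k ph m n) =
            -(starRingEnd ℂ) (((X : ℂ) + Complex.I * Y) - (2 ^ P.s : ℂ) *
              (((4 / (q : ℝ) : ℝ) : ℂ) * (starRingEnd ℂ) (CS d k ph m n))) := by
          rw [e4]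
          simp only [map_sub, map_add, map_mul, Complex.conj_I, map_intCast, Complex.conj_conj, Complex.conj_ofReal,
            map_pow, Complex.conj_ofNat]
          push_cast
          rw [div_neg]
          ring
        rw [e5, norm_neg, Complex.norm_conj]
        exact h5
    · have b2 : Nat.beq (Nat.mod m' 3) (Nat.mod n' 3) = false := by
        rw [Bool.eq_false_iff]
        exact fun h => h2 ((nbeq _ _).1 h)
      rw [b2]
      have h3 : ¬ (3 : ℤ) ∣ n - m := by omega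
      have h4 : CS d k ph m n = 0 := by
        unfold CS
        rw [if_neg h3]
      rw [h4]
      simp

end Pool.Agent.Helper31.KcF
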