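import Pool.Agent.Helper31.NS.KRow
import Pool.Agent.Helper95.SH.Lin

/-!
# Project RC, SHARP cells: the gradient of the shift form in terms of the kernel `kk`
-/

set_option autoImplicit false

open MeasureTheory Set Filter Topology

namespace Pool.Agent.Helper31.KcF

open Helper49.LT hiding sg
open Helper95.RC
open Pool.Agent.Helper99.RC
open Helper95.SH (gNA gNB)

theorem Kc_kk (d k ph : ℝ) (m n : ℤ) :
    Complex.I * Kc (ps d k ph) m n = kk d k ph m n / 2 - (if m = n then 1 / (m : ℂ) else 0) := by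
  unfold kk
  by_cases h : m + n = 0
  · rw [Kc_anti d k ph h, if_pos h]
    by_cases hm : m = 0
    · have hn : n = 0 := by omega
      subst hm
      subst hn
      simp
      ring
    · have hn : m ≠ n := by omega
      rw [if_neg hm, if_neg hm, if_neg hn]
      simp
  · rw [Kc_off d k ph h, if_neg h]
    have hc : ((m : ℂ) + n) ≠ 0 := by
      have : ((m + n : ℤ) : ℂ) ≠ 0 := by exact_mod_cast h
      push_cast at this
      exact this
    have hI := Complex.I_ne_zero
    by_cases hmn : m = n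
    · subst hmn
      have hm : (m : ℂ) ≠ 0 := by
        have : m ≠ 0 := by omega
        exact_mod_cast this
      rw [if_pos rfl, if_pos rfl]
      push_cast
      field_simp
      ring
    · rw [if_neg hmn, if_neg hmn]
      push_cast
      field_simp
      ring

theorem gNA_kk (d k ph : ℝ) (M : ℕ) (a b : ℤ → ℂ) (m : ℤ) (hm : m ∈ Finset.Icc (-(M : ℤ)) M ∨ b m = 0) :
    gNA (ps d k ph) M a b m = a m / (m : ℂ) +
      1 / 2 * ∑ n ∈ Finset.Icc (-(M : ℤ)) M, b n * (starRingEnd ℂ) (kk d k ph m n) := by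
  unfold gNA
  have h1 : ∀ n : ℤ, -Complex.I * (b n * (starRingEnd ℂ) (Kc (ps d k ph) m n)) =
      1 / 2 * (b n * (starRingEnd ℂ) (kk d k ph m n)) - (if m = n then b m / (m : ℂ) else 0) := by
    intro n
    have h2 := congrArg (starRingEnd ℂ) (Kc_kk d k ph m n)
    rw [map_mul, Complex.conj_I] at h2
    have e : -Complex.I * (b n * (starRingEnd ℂ) (Kc (ps d k ph) m n)) =
        b n * (-Complex.I * (starRingEnd ℂ) (Kc (ps d k ph) m n)) := by ring
    rw [e, h2, map_sub, map_div₀, Complex.conj_ofNat]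
    by_cases hmn : m = n
    · subst hmn
      rw [if_pos rfl, if_pos rfl, map_div₀, map_one, map_intCast]
      ring
    · rw [if_neg hmn, if_neg hmn, map_zero]
      ring
  have h3 : -(Complex.I * ∑ n ∈ Finset.Icc (-(M : ℤ)) M, b n * (starRingEnd ℂ) (Kc (ps d k ph) m n)) =
      1 / 2 * ∑ n ∈ Finset.Icc (-(M : ℤ)) M, b n * (starRingEnd ℂ) (kk d k ph m n) - b m / (m : ℂ) := by
    rw [← neg_mul, Finset.mul_sum, Finset.sum_congr rfl fun n _ => h1 n, Finset.sum_sub_distrib, ← Finset.mul_sum,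
      Finset.sum_ite_eq (Finset.Icc (-(M : ℤ)) M) m]
    rcases hm with hm | hm
    · rw [if_pos hm]
    · rw [hm]
      simp
  rw [sub_eq_add_neg, h3]
  ring

theorem gNB_kk (d k ph : ℝ) (M : ℕ) (a b : ℤ → ℂ) (n : ℤ) (hn : n ∈ Finset.Icc (-(M : ℤ)) M ∨ a n = 0) :
    gNB (ps d k ph) M a b n = b n / (n : ℂ) +
      1 / 2 * ∑ m ∈ Finset.Icc (-(M : ℤ)) M, a m * kk d k ph m n := by
  unfold gNB
  have h1 : ∀ m : ℤ, Complex.I * (a m * Kc (ps d k ph) m n) =
      1 / 2 * (a m * kk d k ph m n) - (if m = n then a n / (n : ℂ) else 0) := by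
    intro m
    have e : Complex.I * (a m * Kc (ps d k ph) m n) = a m * (Complex.I * Kc (ps d k ph) m n) := by ring
    rw [e, Kc_kk]
    by_cases hmn : m = n
    · subst hmn
      rw [if_pos rfl, if_pos rfl]
      ring
    · rw [if_neg hmn, if_neg hmn]
      ring
  rw [Finset.mul_sum, Finset.sum_congr rfl fun m _ => h1 m, Finset.sum_sub_distrib, ← Finset.mul_sum,
    Finset.sum_ite_eq' (Finset.Icc (-(M : ℤ)) M) n]
  rcases hn with hn | hn
  · rw [if_pos hn]
    ring
  · rw [hn]
    simp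

end Pool.Agent.Helper31.KcF
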