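import Pool.Agent.Helper31.NS.KRow

/-!
# Project RC, SHARP cells: fast rows and columns of the kernel

`YY q = (4/q) E^q` for all integers `q`; all entries with `m + n = q` are coefficients of `YY q`.
-/

set_option autoImplicit false

open MeasureTheory Set Filter Topology

namespace Pool.Agent.Helper31.KcF

open Helper49.LT hiding sg
open Helper95.RC
open Pool.Agent.Helper99.RC
open Helper87.RC (BM)
open Helper56.RC (fc)
open Helper54.RC.Fast hiding ps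

/-- all the entries with `m + n = q` are coefficients of this function -/
noncomputable def YY (d k ph : ℝ) (q : ℤ) (t : ℝ) : ℂ :=
  if q = 0 then -(2 * (d : ℂ)) * Complex.I else ((4 / (q : ℝ) : ℝ) : ℂ) * EU d k ph t ^ q

theorem YY_zero (d k ph t : ℝ) : YY d k ph 0 t = -(2 * (d : ℂ)) * Complex.I := by
  unfold YY
  rw [if_pos rfl]

theorem YY_pos (d k ph t : ℝ) {q : ℕ} (hq : 0 < q) :
    YY d k ph q t = ((4 / (q : ℝ) : ℝ) : ℂ) * EU d k ph t ^ q := by
  unfold YY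
  rw [if_neg (by exact_mod_cast hq.ne'), zpow_natCast, Int.cast_natCast]

theorem YY_neg (d k ph t : ℝ) (q : ℤ) (hq : q ≠ 0) : YY d k ph (-q) t = -(starRingEnd ℂ) (YY d k ph q t) := by
  unfold YY
  rw [if_neg hq, if_neg (by omega), zpow_neg, map_mul, map_zpow₀, Complex.conj_ofReal]
  have h1 : EU d k ph t * (starRingEnd ℂ) (EU d k ph t) = 1 := by
    rw [Complex.mul_conj, Complex.normSq_eq_norm_sq, EU_norm]
    simp
  have h2 : (starRingEnd ℂ) (EU d k ph t) = (EU d k ph t)⁻¹ := eq_inv_of_mul_eq_one_right h1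
  rw [h2, inv_zpow]
  push_cast
  rw [div_neg]
  ring

theorem YY_BM (d k ph : ℝ) (q : ℤ) : ∃ C, BM (YY d k ph q) C := by
  rcases lt_trichotomy q 0 with h | h | h
  · obtain ⟨n, hn⟩ : ∃ n : ℕ, q = -(n : ℤ) := ⟨q.natAbs, by omega⟩
    have hn0 : 0 < n := by omega
    have e : YY d k ph q = fun t => -(starRingEnd ℂ) (((4 / (n : ℝ) : ℝ) : ℂ) * EU d k ph t ^ n) := by
      funext t
      rw [hn, YY_neg _ _ _ _ _ (by omega), YY_pos _ _ _ _ hn0]
    rw [e]
    have h1 := EU_BM d k ph n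
    refine ⟨4 / n, ⟨?_, fun t => ?_⟩⟩
    · exact (Complex.continuous_conj.measurable.comp (h1.m.const_mul _)).neg
    · rw [norm_neg, Complex.norm_conj, norm_mul, Complex.norm_real, Real.norm_of_nonneg (by positivity)]
      have := h1.b t
      calc 4 / (n : ℝ) * ‖EU d k ph t ^ n‖ ≤ 4 / n * 1 := by gcongr
        _ = 4 / n := mul_one _
  · have e : YY d k ph q = fun _ => -(2 * (d : ℂ)) * Complex.I := by
      funext t
      rw [h, YY_zero]
    rw [e]
    exact ⟨_, ⟨measurable_const, fun _ => le_rfl⟩⟩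
  · obtain ⟨n, hn⟩ : ∃ n : ℕ, q = (n : ℤ) := ⟨q.natAbs, by omega⟩
    have hn0 : 0 < n := by omega
    have e : YY d k ph q = fun t => ((4 / (n : ℝ) : ℝ) : ℂ) * EU d k ph t ^ n := by
      funext t
      rw [hn, YY_pos _ _ _ _ hn0]
    rw [e]
    have h1 := EU_BM d k ph n
    refine ⟨4 / n, ⟨h1.m.const_mul _, fun t => ?_⟩⟩
    rw [norm_mul, Complex.norm_real, Real.norm_of_nonneg (by positivity)]
    have := h1.b t
    calc 4 / (n : ℝ) * ‖EU d k ph t ^ n‖ ≤ 4 / n * 1 := by gcongr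
      _ = 4 / n := mul_one _

theorem fc_c (c : ℂ) (j : ℤ) : fc (fun _ => c) j = if j = 0 then c else 0 := by
  have h := av_const_mul c (fun t => ee (((-j : ℤ) : ℝ) * t))
  rw [av_ee] at h
  unfold fc
  unfold av at h
  have e : ∀ t : ℝ, ee (-((j : ℝ) * t)) = ee (((-j : ℤ) : ℝ) * t) := by
    intro t
    congr 1
    push_cast
    ring
  simp_rw [e]
  rw [h]
  by_cases hj : j = 0
  · rw [if_pos hj, if_pos (by omega), mul_one]
  · rw [if_neg hj, if_neg (by omega), mul_zero]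

theorem fc_YYp (d k ph : ℝ) {m n : ℤ} {q : ℕ} (hq : 0 < q) (h : m + n = (q : ℤ)) (h3 : (3 : ℤ) ∣ n - m) :
    fc (YY d k ph (q : ℤ)) ((n - m) / 3) = kk d k ph m n := by
  have e : YY d k ph (q : ℤ) = fun t => ((4 / (q : ℝ) : ℝ) : ℂ) * EU d k ph t ^ q := by
    funext t
    rw [YY_pos _ _ _ _ hq]
  rw [e, Helper87.RC.fc_cmul, ← CS_fc d k ph h h3]
  unfold kk
  rw [if_neg (by omega), h, Int.cast_natCast]

/-- **all entries are coefficients** -/
theorem fc_YY (d k ph : ℝ) {m n q : ℤ} (h : m + n = q) (h3 : (3 : ℤ) ∣ n - m) :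
    fc (YY d k ph q) ((n - m) / 3) = kk d k ph m n := by
  rcases lt_trichotomy q 0 with hq | hq | hq
  · obtain ⟨l, hl⟩ : ∃ l : ℕ, q = -(l : ℤ) := ⟨q.natAbs, by omega⟩
    have hl0 : 0 < l := by omega
    have h1 := fc_YYp d k ph (m := -m) (n := -n) hl0 (by omega) (by omega)
    have e : YY d k ph q = fun t => (-1 : ℂ) * (starRingEnd ℂ) (YY d k ph (l : ℤ) t) := by
      funext t
      rw [hl, YY_neg _ _ _ _ _ (by omega)]
      ring
    obtain ⟨C, hC⟩ := YY_BM d k ph (l : ℤ)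
    have e2 : (-n - -m) / 3 = -((n - m) / 3) := by omega
    rw [e2] at h1
    rw [e, Helper87.RC.fc_cmul, Helper87.RC.fc_conj, h1]
    unfold kk
    rw [if_neg (by omega), if_neg (by omega), CS_neg, map_mul, Complex.conj_ofReal, Complex.conj_conj]
    have e3 : -m + -n = -(m + n) := by ring
    rw [e3]
    push_cast
    rw [div_neg]
    ring
  · have e : YY d k ph q = fun _ => -(2 * (d : ℂ)) * Complex.I := by
      funext t
      rw [hq, YY_zero]
    rw [e, fc_c]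
    unfold kk
    have hmn : m + n = 0 := by omega
    rw [if_pos hmn]
    by_cases hm : m = 0
    · have hj : (n - m) / 3 = 0 := by omega
      rw [if_pos hj, if_pos hm]
    · have hj : (n - m) / 3 ≠ 0 := by omega
      rw [if_neg hj, if_neg hm]
  · obtain ⟨l, hl⟩ : ∃ l : ℕ, q = (l : ℤ) := ⟨q.natAbs, by omega⟩
    rw [hl]
    exact fc_YYp d k ph (by omega) (by omega) h3

/-! ## The list of all `YY q` -/

/-- multiplication by `4 / q` -/
def sclF (b s q : ℕ) (p : PF) : PF :=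
  ⟨flF b (Nat.succ s) (smF b (Nat.div (Nat.pow 2 (Nat.add s 3)) q) p.z),
    Nat.add (Nat.add (Nat.mul 2 (len p.z.N)) (Nat.add 2 (Nat.div p.er (Nat.pow 2 (Nat.succ s)))))
      (Nat.succ (Nat.div (Nat.mul 4 p.er) q))⟩

/-- its check -/
def okScl (b r s q : ℕ) (p : PF) : Bool := oks b r (Nat.div (Nat.pow 2 (Nat.add s 3)) q) p.z

theorem sclF_sound (b r s q : ℕ) (hr : r ≤ b + 1) (hs : s + 1 ≤ b) (hq : 0 < q) (p : PF) (f : ℝ → ℂ)
    (hf : ∀ t, ‖f t‖ ≤ 1) (hp : AP b s p f) (ho : okScl b r s q p = true) :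
    AP b s (sclF b s q p) (fun t => ((4 / (q : ℝ) : ℝ) : ℂ) * f t) := by
  obtain ⟨w1, a1⟩ := hp
  obtain ⟨w2, a2⟩ := smF_sound b r hr (2 ^ (s + 3) / q) p.z w1 ho
  obtain ⟨w3, a3⟩ := flF_sound b (s + 1) hs (smF b (2 ^ (s + 3) / q) p.z)
  refine ⟨w3, fun t => ?_⟩
  show ‖V b (flF b (s + 1) (smF b (2 ^ (s + 3) / q) p.z)) t - (2 ^ s : ℂ) * (((4 / (q : ℝ) : ℝ) : ℂ) * f t)‖ ≤
    ((2 * len p.z.N + (2 + p.er / 2 ^ (s + 1)) + (4 * p.er / q + 1) : ℕ) : ℝ)
  have b1 := a1 t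
  have b3 := a3 t
  rw [a2] at b3
  have hlen : (smF b (2 ^ (s + 3) / q) p.z).N = p.z.N := rfl
  rw [hlen] at b3
  set c : ℕ := 2 ^ (s + 3) / q with hc
  set X := V b p.z t
  set Z := V b (flF b (s + 1) (smF b c p.z)) t
  have hq' : (0 : ℝ) < q := by exact_mod_cast hq
  have hS : (0 : ℝ) < 2 ^ (s + 1) := by positivity
  -- the constant
  have hc1 : |(c : ℝ) / 2 ^ (s + 1) - 4 / q| ≤ 1 / 2 ^ (s + 1) := by
    have h2 := Nat.div_add_mod (2 ^ (s + 3)) q
    have h3 := Nat.mod_lt (2 ^ (s + 3)) hq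
    rw [← hc] at h2
    have h4 : (q : ℝ) * c + ((2 ^ (s + 3) % q : ℕ) : ℝ) = 2 ^ (s + 3) := by exact_mod_cast h2
    have h5 : ((2 ^ (s + 3) % q : ℕ) : ℝ) ≤ (q : ℝ) := by exact_mod_cast h3.le
    have h6 : (0 : ℝ) ≤ ((2 ^ (s + 3) % q : ℕ) : ℝ) := Nat.cast_nonneg _
    have e : (c : ℝ) / 2 ^ (s + 1) - 4 / q = -(((2 ^ (s + 3) % q : ℕ) : ℝ) / q) / 2 ^ (s + 1) := by
      have : (2 : ℝ) ^ (s + 3) = 4 * 2 ^ (s + 1) := by ring
      rw [this] at h4
      field_simp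
      linarith
    rw [e, abs_div, abs_neg, abs_of_pos hS, abs_of_nonneg (by positivity)]
    apply div_le_div_of_nonneg_right _ hS.le
    rw [div_le_one hq']
    exact h5
  have hX : ‖X‖ ≤ 2 ^ s + p.er := by
    have e : X = (2 ^ s : ℂ) * f t + (X - (2 ^ s : ℂ) * f t) := by ring
    rw [e]
    refine (norm_add_le _ _).trans ?_
    rw [norm_mul, norm_pow, Complex.norm_ofNat]
    have := hf t
    have h2s : (0 : ℝ) < 2 ^ s := by positivity
    nlinarith
  have e1 : Z - (2 ^ s : ℂ) * (((4 / (q : ℝ) : ℝ) : ℂ) * f t) =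
      -((c : ℂ) * X - (2 ^ (s + 1) : ℂ) * Z) / 2 ^ (s + 1) +
        (((c : ℝ) / 2 ^ (s + 1) - 4 / q : ℝ) : ℂ) * X + ((4 / (q : ℝ) : ℝ) : ℂ) * (X - (2 ^ s : ℂ) * f t) := by
    have h2 : (2 ^ (s + 1) : ℂ) ≠ 0 := pow_ne_zero _ two_ne_zero
    push_cast
    field_simp
    ring
  rw [e1]
  have n1 : ‖-((c : ℂ) * X - (2 ^ (s + 1) : ℂ) * Z) / 2 ^ (s + 1)‖ ≤ 2 * (len p.z.N : ℝ) := by
    rw [norm_div, norm_neg, norm_pow, Complex.norm_ofNat, div_le_iff₀ hS]
    exact b3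
  have n2 : ‖(((c : ℝ) / 2 ^ (s + 1) - 4 / q : ℝ) : ℂ) * X‖ ≤ 2 + ((p.er / 2 ^ (s + 1) : ℕ) : ℝ) := by
    rw [norm_mul, Complex.norm_real, Real.norm_eq_abs]
    calc |(c : ℝ) / 2 ^ (s + 1) - 4 / q| * ‖X‖ ≤ 1 / 2 ^ (s + 1) * (2 ^ s + p.er) :=
          mul_le_mul hc1 hX (norm_nonneg _) (by positivity)
      _ ≤ 2 + ((p.er / 2 ^ (s + 1) : ℕ) : ℝ) := by
        rw [div_mul_eq_mul_div, one_mul, div_le_iff₀ hS]
        have h2 : (2 : ℝ) ^ s ≤ 2 ^ (s + 1) := pow_le_pow_right₀ (by norm_num) (by omega)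
        have h4 : p.er ≤ (p.er / 2 ^ (s + 1) + 1) * 2 ^ (s + 1) := by
          have := Nat.lt_div_mul_add (a := p.er) (b := 2 ^ (s + 1)) (by positivity)
          rw [add_mul, one_mul]
          exact this.le
        have h5 : (p.er : ℝ) ≤ (((p.er / 2 ^ (s + 1) : ℕ) : ℝ) + 1) * 2 ^ (s + 1) := by exact_mod_cast h4
        linarith
  have n3 : ‖((4 / (q : ℝ) : ℝ) : ℂ) * (X - (2 ^ s : ℂ) * f t)‖ ≤ 4 * p.er / q := by
    rw [norm_mul, Complex.norm_real, Real.norm_of_nonneg (by positivity)]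
    calc 4 / (q : ℝ) * ‖X - (2 ^ s : ℂ) * f t‖ ≤ 4 / (q : ℝ) * p.er := by gcongr
      _ = 4 * p.er / q := by ring
  have n4 : (4 * p.er / q : ℝ) ≤ ((4 * p.er / q + 1 : ℕ) : ℝ) := by
    rw [div_le_iff₀ hq']
    have := Nat.lt_div_mul_add (a := 4 * p.er) hq
    have h2 : 4 * p.er ≤ (4 * p.er / q + 1) * q := by
      rw [add_mul, one_mul]
      exact this.le
    exact_mod_cast h2
  refine (norm_add_le _ _).trans ?_
  have n5 := norm_add_le (-((c : ℂ) * X - (2 ^ (s + 1) : ℂ) * Z) / 2 ^ (s + 1))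
    ((((c : ℝ) / 2 ^ (s + 1) - 4 / q : ℝ) : ℂ) * X)
  have e2 : ((2 * len p.z.N + (2 + p.er / 2 ^ (s + 1)) + (4 * p.er / q + 1) : ℕ) : ℝ) =
      2 * (len p.z.N : ℝ) + (2 + ((p.er / 2 ^ (s + 1) : ℕ) : ℝ)) + ((4 * p.er / q + 1 : ℕ) : ℝ) := by
    push_cast
    ring
  rw [e2]
  linarith

/-- `-conj` -/
def ngF (b : ℕ) (z : FP) : FP := negF b (cjF b z)
/-- its check -/
def okNg (b r : ℕ) (z : FP) : Bool := okn b r z && okn b r (cjF b z)

theorem ngF_sound (b r : ℕ) (hr : r ≤ b + 1) (z : FP) (ho : okNg b r z = true) : wf b (ngF b z) = true ∧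
    ∀ t, V b (ngF b z) t = -(starRingEnd ℂ) (V b z t) := by
  unfold okNg at ho
  rw [Bool.and_eq_true] at ho
  obtain ⟨w1, a1⟩ := cjF_sound b r hr z ho.1
  obtain ⟨w2, a2⟩ := negF_sound b r hr (cjF b z) w1 ho.2
  exact ⟨w2, fun t => by rw [← a1]; exact a2 t⟩

/-- parameters of the fast computation: base `bE` for the exponential, base `b` for all the rest -/
structure KQ where
  bE : ℕ
  rE : ℕ
  sE : ℕ
  M : ℕ
  R : ℕ
  n : ℕ
  tau : ℕ
  b : ℕ
  r : ℕ
  s : ℕ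
  ws : List ℕ

/-- change of the base -/
def reb (b b' : ℕ) (z : FP) : FP :=
  ofL b' z.N (mkL (fun k => dgI b k z.x) (len z.N) 0) (mkL (fun k => dgI b k z.y) (len z.N) 0)
/-- its check -/
def okReb (b b' : ℕ) (z : FP) : Bool :=
  rng b' (mkL (fun k => dgI b k z.x) (len z.N) 0) && rng b' (mkL (fun k => dgI b k z.y) (len z.N) 0)

theorem reb_sound (b b' : ℕ) (z : FP) (ho : okReb b b' z = true) :
    wf b' (reb b b' z) = true ∧ ∀ t, V b' (reb b b' z) t = V b z t := by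
  unfold okReb at ho
  rw [Bool.and_eq_true] at ho
  obtain ⟨w1, w2⟩ := ofL_sound b' z.N _ _ (mkL_length _ _ _) (mkL_length _ _ _) ho.1 ho.2
  refine ⟨w1, fun t => ?_⟩
  show V b' (ofL b' z.N _ _) t = _
  rw [w2 t, V_eq_sum]
  unfold Helper76.RC.TPoly.T Helper76.RC.TPoly.TP.ev
  simp only
  rw [evr_mkL, evr_mkL, Finset.mul_sum, ← Finset.sum_add_distrib, Finset.mul_sum]
  refine Finset.sum_congr rfl fun k _ => ?_
  have e1 : ∀ X k : ℕ, ((dgI b k X : ℤ) : ℂ) = (dg b k X : ℂ) - 2 ^ b := by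
    intro X k
    unfold dgI
    rw [Int.subNatNat_eq_coe]
    show (((dg b k X : ℤ) - ((2 ^ b : ℕ) : ℤ) : ℤ) : ℂ) = _
    push_cast
    rfl
  have e2 : ee (((k : ℝ) - z.N) * t) = ee (-((z.N : ℝ) * t)) * ee t ^ k := by
    rw [← Helper76.RC.TPoly.ee_nat, ← ee_add]
    congr 1
    ring
  rw [e2, zero_add, e1, e1]
  unfold Helper54.RC.Fast.cc
  ring

/-- `E` -/
def yQ (P : KQ) (K : KD) : PF :=
  ⟨reb P.bE P.b (Helper76.RC.ExpF.expF P.bE P.sE P.M (Nat.pow 2 P.s) (4 * K.D * K.h) P.n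
    (expU P.bE K.dn K.kn K.c K.sn K.h)), 21 * P.R + P.tau⟩

/-- the check of `E` -/
def okQ (P : KQ) (K : KD) : Bool :=
  okX P.bE K.dn K.kn K.c K.sn K.h &&
    Helper76.RC.ExpF.okE P.bE P.rE P.sE P.M (Nat.pow 2 P.s) (4 * K.D * K.h) P.R P.n P.tau
      (expU P.bE K.dn K.kn K.c K.sn K.h) &&
    (Nat.ble P.r (Nat.succ P.b) && Nat.ble P.s P.b && Nat.ble (Nat.succ (Nat.pow 2 P.s)) (Nat.pow 2 P.b)) &&
    (Nat.ble 1 K.D && Nat.ble 1 K.h) &&
    okReb P.bE P.b (Helper76.RC.ExpF.expF P.bE P.sE P.M (Nat.pow 2 P.s) (4 * K.D * K.h) P.n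
      (expU P.bE K.dn K.kn K.c K.sn K.h))

theorem yQ_AP (P : KQ) (K : KD) (ph : ℝ) (hph : ee ph = -(((K.c : ℂ) + Complex.I * K.sn) / K.h))
    (ho : okQ P K = true) : AP P.b P.s (yQ P K) (fun t => EU ((K.dn : ℝ) / K.D) ((K.kn : ℝ) / K.D) ph t ^ 1) := by
  unfold okQ at ho
  simp only [Bool.and_eq_true] at ho
  obtain ⟨⟨⟨⟨h1, h2⟩, ⟨⟨h3, h4⟩, h5⟩⟩, h6, h7⟩, h8⟩ := ho
  have h6 : 0 < K.D := Nat.le_of_ble_eq_true h6
  have h7 : 0 < K.h := Nat.le_of_ble_eq_true h7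
  obtain ⟨w1, -, w3⟩ := Helper76.RC.ExpF.expF_sound _ _ _ _ _ _ _ _ _ _ h2
  obtain ⟨v1, v2⟩ := reb_sound _ _ _ h8
  refine ⟨v1, fun t => ?_⟩
  have w4 := w3 t
  rw [V_expU P.bE K.dn K.kn K.c K.sn K.h K.D h7 h6 ph hph h1 t] at w4
  show ‖V P.b (reb _ _ _) t - (2 ^ P.s : ℂ) * (EU _ _ ph t ^ 1)‖ ≤ ((21 * P.R + P.tau : ℕ) : ℝ)
  rw [v2 t, pow_one]
  have e : (((Nat.pow 2 P.s : ℕ)) : ℂ) = 2 ^ P.s := by
    show (((2 ^ P.s : ℕ)) : ℂ) = 2 ^ P.s
    push_cast
    rfl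
  rw [e] at w4
  exact w4

/-- `1` -/
def oneQ (P : KQ) : PF := ⟨Helper76.RC.ExpF.cst P.b 0 (Nat.pow 2 P.s), 0⟩

/-- the table `[E^Q, ..., E, 1]` -/
def tabQ (P : KQ) (K : KD) : Option (List PF) := chain P.b P.s P.r (yQ P K) P.ws (oneQ P) []

theorem tabQ_sound (P : KQ) (K : KD) (ph : ℝ) (hph : ee ph = -(((K.c : ℂ) + Complex.I * K.sn) / K.h))
    (ho : okQ P K = true) (res : List PF) (hres : tabQ P K = some res) (q : ℕ) (p : PF)
    (hp : res.reverse[q]? = some p) :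
    AP P.b P.s p (fun t => EU ((K.dn : ℝ) / K.D) ((K.kn : ℝ) / K.D) ph t ^ q) := by
  have hy := yQ_AP P K ph hph ho
  unfold okQ at ho
  simp only [Bool.and_eq_true] at ho
  obtain ⟨⟨⟨⟨-, -⟩, ⟨⟨h3, h4⟩, h5⟩⟩, -, -⟩, -⟩ := ho
  have h3 : P.r ≤ P.b + 1 := Nat.le_of_ble_eq_true h3
  have h4 : P.s ≤ P.b := Nat.le_of_ble_eq_true h4
  have h5 : 2 ^ P.s < 2 ^ P.b := Nat.le_of_ble_eq_true h5
  have h1 : AP P.b P.s (oneQ P) (fun t => EU ((K.dn : ℝ) / K.D) ((K.kn : ℝ) / K.D) ph t ^ 0) := by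
    obtain ⟨c1, c2⟩ := Helper76.RC.ExpF.cst_sound P.b 0 (2 ^ P.s) h5
    refine ⟨c1, fun t => ?_⟩
    show ‖V P.b (Helper76.RC.ExpF.cst P.b 0 (2 ^ P.s)) t - (2 ^ P.s : ℂ) * (EU _ _ ph t ^ 0)‖ ≤ ((0 : ℕ) : ℝ)
    rw [c2]
    simp
  have h := chain_sound P.b P.s P.r h3 h4 (fun t => EU ((K.dn : ℝ) / K.D) ((K.kn : ℝ) / K.D) ph t)
    (fun t => EU_norm _ _ _ _) 1 (yQ P K) hy P.ws 0 (oneQ P) [] res (by simpa using h1) (by simp) hres q p hp
  simpa using h

/-- `-2 d` at the scale `2 ^ s` -/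
def d2Q (s : ℕ) (K : KD) : ℤ := Int.neg (Int.ediv (Int.mul (Int.mul 2 K.dn) (Int.ofNat (Nat.pow 2 s))) (Int.ofNat K.D))

/-- `-2 d i` as a constant polynomial -/
def zeF (b s : ℕ) (K : KD) : FP := ofL b 0 [0] [d2Q s K]

/-- `YY 1, .., YY Q` from `E, .., E^Q` -/
def posL (b s : ℕ) : ℕ → List PF → List PF
  | _, [] => []
  | q, p :: l => sclF b s q p :: posL b s (Nat.succ q) l
/-- the checks (with the bound of the errors) -/
def okPos (b s r e : ℕ) : ℕ → List PF → Bool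
  | _, [] => true
  | q, p :: l => bif okScl b r s q p then
      (bif okNg b r (sclF b s q p).z then (bif Nat.ble (sclF b s q p).er e then okPos b s r e (Nat.succ q) l else false)
        else false) else false

/-- the list `YY (-Q), .., YY Q` from the list `YY 1, .., YY Q` -/
def symL (b : ℕ) (z : FP) : List PF → List FP → List FP
  | [], acc => acc
  | p :: l, acc => symL b z l (ngF b p.z :: acc)
def zL : List PF → List FP
  | [] => []
  | p :: l => p.z :: zL l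
def allL (b s : ℕ) (K : KD) (l : List PF) : List FP := symL b (zeF b s K) l (zeF b s K :: zL l)

/-- element of a list of polynomials -/
def ntF : List FP → ℕ → FP
  | [], _ => ⟨0, 0, 0⟩
  | a :: _, 0 => a
  | _ :: l, n + 1 => ntF l n

theorem ntF_drop : ∀ (l : List FP) (k i : ℕ), ntF (l.drop k) i = ntF l (k + i)
  | [], k, i => by simp [ntF]
  | a :: l, 0, i => by simp
  | a :: l, k + 1, i => by
    rw [List.drop_succ_cons, ntF_drop l k i]
    have : k + 1 + i = (k + i) + 1 := by ring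
    rw [this]
    rfl

theorem ntF_zL : ∀ (l : List PF) (i : ℕ), i < l.length → ntF (zL l) i = (nthP l i).z
  | [], i, h => by simp at h
  | a :: l, 0, h => rfl
  | a :: l, i + 1, h => ntF_zL l i (by simpa using h)

theorem nthP_posL (b s : ℕ) : ∀ (l : List PF) (q i : ℕ), i < l.length →
    nthP (posL b s q l) i = sclF b s (q + i) (nthP l i)
  | [], q, i, h => by simp at h
  | a :: l, q, 0, h => rfl
  | a :: l, q, i + 1, h => by
    have := nthP_posL b s l (q + 1) i (by simpa using h)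
    have e : q + 1 + i = q + (i + 1) := by ring
    rw [e] at this
    exact this

theorem posL_length (b s : ℕ) : ∀ (l : List PF) (q : ℕ), (posL b s q l).length = l.length
  | [], q => rfl
  | a :: l, q => by
    show (posL b s (q + 1) l).length + 1 = l.length + 1
    rw [posL_length b s l]

theorem okPos_sound (b s r e : ℕ) : ∀ (l : List PF) (q i : ℕ), okPos b s r e q l = true → i < l.length →
    okScl b r s (q + i) (nthP l i) = true ∧ okNg b r (sclF b s (q + i) (nthP l i)).z = true ∧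
      (sclF b s (q + i) (nthP l i)).er ≤ e
  | [], q, i, _, h => by simp at h
  | a :: l, q, i, ho, h => by
    unfold okPos at ho
    cases h1 : okScl b r s q a with
    | false => rw [h1] at ho; simp at ho
    | true =>
      cases h2 : okNg b r (sclF b s q a).z with
      | false => rw [h1, h2] at ho; simp at ho
      | true =>
        cases h3 : Nat.ble (sclF b s q a).er e with
        | false => rw [h1, h2, h3] at ho; simp at ho
        | true =>
          rw [h1, h2, h3] at ho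
          cases i with
          | zero => exact ⟨h1, h2, Nat.le_of_ble_eq_true h3⟩
          | succ i =>
            have := okPos_sound b s r e l (q + 1) i ho (by simpa using h)
            have e1 : q + 1 + i = q + (i + 1) := by ring
            rw [e1] at this
            exact this

theorem ntF_symL (b : ℕ) (z : FP) : ∀ (l : List PF) (acc : List FP) (i : ℕ),
    ntF (symL b z l acc) (l.length + i) = ntF acc i
  | [], acc, i => by simp [symL]
  | p :: l, acc, i => by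
    show ntF (symL b z l (ngF b p.z :: acc)) (l.length + 1 + i) = _
    have := ntF_symL b z l (ngF b p.z :: acc) (i + 1)
    have e : l.length + 1 + i = l.length + (i + 1) := by ring
    rw [e, this]
    rfl

theorem ntF_symL2 (b : ℕ) (z : FP) : ∀ (l : List PF) (acc : List FP) (i : ℕ), i < l.length →
    ntF (symL b z l acc) (l.length - 1 - i) = ngF b (nthP l i).z
  | [], acc, i, h => by simp at h
  | p :: l, acc, i, h => by
    show ntF (symL b z l (ngF b p.z :: acc)) (l.length + 1 - 1 - i) = _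
    cases i with
    | zero =>
      have := ntF_symL b z l (ngF b p.z :: acc) 0
      rw [Nat.add_sub_cancel, Nat.sub_zero]
      rw [Nat.add_zero] at this
      rw [this]
      rfl
    | succ i =>
      have h2 : i < l.length := by simpa using h
      have := ntF_symL2 b z l (ngF b p.z :: acc) i h2
      have e : l.length + 1 - 1 - (i + 1) = l.length - 1 - i := by omega
      rw [e, this]
      rfl

/-- the data of the computed table, fast version -/
structure Tab2 (b s : ℕ) (K : KD) (e : ℕ) (F : List FP) (Q : ℕ) (ph : ℝ) : Prop where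
  ap : ∀ q : ℤ, |q| ≤ (Q : ℤ) → Ap b s (ntF F (q + Q).toNat) e (YY ((K.dn : ℝ) / K.D) ((K.kn : ℝ) / K.D) ph q)

theorem d2Q_err (s : ℕ) (K : KD) (hD : 0 < K.D) :
    |((d2Q s K : ℤ) : ℝ) + 2 * ((K.dn : ℝ) / K.D) * 2 ^ s| ≤ 1 := by
  have hD' : (0 : ℝ) < K.D := by exact_mod_cast hD
  have e0 : d2Q s K = -(2 * K.dn * ((2 ^ s : ℕ) : ℤ) / (K.D : ℤ)) := rfl
  have h1 := Int.emod_add_mul_ediv (2 * K.dn * ((2 ^ s : ℕ) : ℤ)) K.D
  have h2 : 0 ≤ (2 * K.dn * ((2 ^ s : ℕ) : ℤ)) % (K.D : ℤ) := Int.emod_nonneg _ (by omega)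
  have h3 : (2 * K.dn * ((2 ^ s : ℕ) : ℤ)) % (K.D : ℤ) < K.D := Int.emod_lt_of_pos _ (by omega)
  rw [e0]
  set a := (2 * K.dn * ((2 ^ s : ℕ) : ℤ)) % (K.D : ℤ) with ha
  set c := 2 * K.dn * ((2 ^ s : ℕ) : ℤ) / (K.D : ℤ) with hc
  have h4 : (a : ℝ) + K.D * c = 2 * K.dn * 2 ^ s := by exact_mod_cast h1
  have h5 : ((-c : ℤ) : ℝ) + 2 * ((K.dn : ℝ) / K.D) * 2 ^ s = a / K.D := by
    have : (2 : ℝ) * ((K.dn : ℝ) / K.D) * 2 ^ s = (2 * K.dn * 2 ^ s) / K.D := by ring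
    rw [this, ← h4]
    push_cast
    field_simp
    ring
  rw [h5, abs_of_nonneg (by positivity), div_le_one hD']
  exact_mod_cast h3.le

/-- the table of `YY 1, .., YY Q` -/
def getP (P : KQ) (K : KD) : List PF :=
  match tabQ P K with
  | some res => posL P.b P.s 1 (res.reverse.drop 1)
  | none => []
/-- the table of `YY (-Q), .., YY Q` -/
def getF (P : KQ) (K : KD) : List FP := allL P.b P.s K (getP P K)

def okL2 (P : KQ) (K : KD) (e Q : ℕ) (l : List PF) : Bool :=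
  okPos P.b P.s P.r e 1 l && (Nat.beq l.length Q && rng P.b [d2Q P.s K])

/-- the check of the table -/
def okTab2 (P : KQ) (K : KD) (e Q : ℕ) : Bool :=
  okQ P K && (Nat.ble 1 e && Nat.ble (Nat.succ P.s) P.b) &&
    match tabQ P K with
    | some res => okL2 P K e Q (res.reverse.drop 1)
    | none => false

theorem okTab2_sound (P : KQ) (K : KD) (e Q : ℕ) (ph : ℝ)
    (hph : ee ph = -(((K.c : ℂ) + Complex.I * K.sn) / K.h)) (ho : okTab2 P K e Q = true) :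
    Tab2 P.b P.s K e (getF P K) Q ph := by
  unfold okTab2 at ho
  rw [Bool.and_eq_true, Bool.and_eq_true, Bool.and_eq_true] at ho
  obtain ⟨⟨h1, h2, h7⟩, h3⟩ := ho
  have h2 : 1 ≤ e := Nat.le_of_ble_eq_true h2
  have h7 : P.s + 1 ≤ P.b := Nat.le_of_ble_eq_true h7
  cases hres : tabQ P K with
  | none => rw [hres] at h3; simp at h3
  | some res =>
    rw [hres] at h3
    have h3 : okL2 P K e Q (res.reverse.drop 1) = true := h3
    unfold okL2 at h3
    rw [Bool.and_eq_true, Bool.and_eq_true] at h3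
    obtain ⟨h4, h5, h6⟩ := h3
    have h5 : (res.reverse.drop 1).length = Q := (nbeq _ _).1 h5
    set l := res.reverse.drop 1 with hl
    have hF : getF P K = allL P.b P.s K (posL P.b P.s 1 l) := by
      unfold getF getP
      rw [hres]
    have hlen : (posL P.b P.s 1 l).length = Q := by rw [posL_length, h5]
    have h1' := h1
    unfold okQ at h1'
    simp only [Bool.and_eq_true] at h1'
    obtain ⟨⟨⟨⟨-, -⟩, ⟨⟨h8, h9⟩, h10⟩⟩, h11, -⟩, -⟩ := h1'
    have hr : P.r ≤ P.b + 1 := Nat.le_of_ble_eq_true h8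
    have hD : 0 < K.D := Nat.le_of_ble_eq_true h11
    set d : ℝ := (K.dn : ℝ) / K.D with hd
    set k : ℝ := (K.kn : ℝ) / K.D with hk
    -- the positive part
    have pos : ∀ i, i < Q → AP P.b P.s (sclF P.b P.s (1 + i) (nthP l i)) (YY d k ph ((1 + i : ℕ) : ℤ)) ∧
        okNg P.b P.r (sclF P.b P.s (1 + i) (nthP l i)).z = true ∧ (sclF P.b P.s (1 + i) (nthP l i)).er ≤ e := by
      intro i hi
      have g1 : l[i]? = some (nthP l i) := nthP_get l i (by omega)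
      have g2 : res.reverse[1 + i]? = some (nthP l i) := by
        rw [hl, List.getElem?_drop] at g1
        rw [← g1]
      have g3 := tabQ_sound P K ph hph h1 res hres (1 + i) _ g2
      obtain ⟨o1, o2, o3⟩ := okPos_sound P.b P.s P.r e l 1 i h4 (by omega)
      have g4 := sclF_sound P.b P.r P.s (1 + i) hr h7 (by omega) _ _
        (fun t => by rw [norm_pow, EU_norm, one_pow]) g3 o1
      have e1 : (YY d k ph ((1 + i : ℕ) : ℤ)) =
          fun t => ((4 / ((1 + i : ℕ) : ℝ) : ℝ) : ℂ) * EU d k ph t ^ (1 + i) := by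
        funext t
        rw [YY_pos _ _ _ _ (by omega)]
      rw [e1]
      exact ⟨g4, o2, o3⟩
    have he : ∀ {x y : ℕ}, x ≤ y → (x : ℝ) ≤ y := fun h => by exact_mod_cast h
    refine ⟨fun q hq => ?_⟩
    rw [hF]
    have hq' := abs_le.1 hq
    rcases lt_trichotomy q 0 with h | h | h
    · obtain ⟨i, hi⟩ : ∃ i : ℕ, q = -((1 + i : ℕ) : ℤ) := ⟨q.natAbs - 1, by omega⟩
      have hi2 : i < Q := by omega
      have e1 : (q + Q).toNat = (posL P.b P.s 1 l).length - 1 - i := by omega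
      unfold allL
      rw [e1, ntF_symL2 P.b _ _ _ _ (by omega), nthP_posL P.b P.s l 1 i (by omega)]
      obtain ⟨⟨w1, a1⟩, o2, o3⟩ := pos i hi2
      obtain ⟨w2, a2⟩ := ngF_sound P.b P.r hr _ o2
      refine ⟨w2, fun t => ?_⟩
      rw [a2 t, hi, YY_neg _ _ _ _ _ (by omega)]
      have e2 : -(starRingEnd ℂ) (V P.b (sclF P.b P.s (1 + i) (nthP l i)).z t) -
          (2 ^ P.s : ℂ) * -(starRingEnd ℂ) (YY d k ph ((1 + i : ℕ) : ℤ) t) =
          -(starRingEnd ℂ) (V P.b (sclF P.b P.s (1 + i) (nthP l i)).z t -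
            (2 ^ P.s : ℂ) * YY d k ph ((1 + i : ℕ) : ℤ) t) := by
        simp only [map_sub, map_mul, map_pow, Complex.conj_ofNat]
        ring
      rw [e2, norm_neg, Complex.norm_conj]
      exact (a1 t).trans (he o3)
    · subst h
      have e1 : ((0 : ℤ) + Q).toNat = (posL P.b P.s 1 l).length + 0 := by omega
      unfold allL
      rw [e1, ntF_symL]
      show Ap P.b P.s (zeF P.b P.s K) e _
      obtain ⟨w1, a1⟩ := ofL_sound P.b 0 [0] [d2Q P.s K] rfl rfl (by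
        unfold rng
        have : Nat.ble (Nat.succ (0 : ℤ).natAbs) (Nat.pow 2 P.b) = true :=
          Nat.ble_eq_true_of_le (Nat.one_le_two_pow)
        rw [this]
        rfl) h6
      refine ⟨w1, fun t => ?_⟩
      have e2 : V P.b (zeF P.b P.s K) t = Helper76.RC.TPoly.T 0 ⟨[0], [d2Q P.s K]⟩ t := a1 t
      rw [e2, YY_zero]
      unfold Helper76.RC.TPoly.T Helper76.RC.TPoly.TP.ev
      simp only [Helper76.RC.TPoly.evr]
      have e3 := d2Q_err P.s K hD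
      rw [← hd] at e3
      have e4 : ee (-(((0 : ℕ) : ℝ) * t)) = 1 := by
        simp [ee_zero]
      rw [e4]
      have e5 : (1 : ℂ) * (((0 : ℤ) : ℂ) + ee t * 0 + Complex.I * ((d2Q P.s K : ℂ) + ee t * 0)) -
          (2 ^ P.s : ℂ) * (-(2 * (d : ℂ)) * Complex.I) =
          Complex.I * ((((d2Q P.s K : ℤ) : ℝ) + 2 * d * 2 ^ P.s : ℝ) : ℂ) := by
        push_cast
        ring
      rw [e5, norm_mul, Complex.norm_I, one_mul, Complex.norm_real, Real.norm_eq_abs]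
      exact e3.trans (by exact_mod_cast h2)
    · obtain ⟨i, hi⟩ : ∃ i : ℕ, q = ((1 + i : ℕ) : ℤ) := ⟨q.natAbs - 1, by omega⟩
      have hi2 : i < Q := by omega
      have e1 : (q + Q).toNat = (posL P.b P.s 1 l).length + (i + 1) := by omega
      unfold allL
      rw [e1, ntF_symL]
      show Ap P.b P.s (ntF (zL (posL P.b P.s 1 l)) i) e _
      rw [ntF_zL _ _ (by omega), nthP_posL P.b P.s l 1 i (by omega), hi]
      obtain ⟨⟨w1, a1⟩, -, o3⟩ := pos i hi2
      exact ⟨w1, fun t => (a1 t).trans (he o3)⟩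

/-! ## Packed digits -/

theorem sumD_lt (b : ℕ) (D : ℕ → ℕ) (hD : ∀ k, D k < 2 ^ (b + 1)) : ∀ k : ℕ,
    ∑ i ∈ Finset.range k, D i * (2 ^ (b + 1)) ^ i < (2 ^ (b + 1)) ^ k
  | 0 => by simp
  | k + 1 => by
    rw [Finset.sum_range_succ]
    have h1 := sumD_lt b D hD k
    have h2 := hD k
    generalize hB : 2 ^ (b + 1) = B at h1 h2 ⊢
    have h3 : D k * B ^ k + B ^ k ≤ B ^ (k + 1) := by
      calc D k * B ^ k + B ^ k = (D k + 1) * B ^ k := by ring
        _ ≤ B * B ^ k := Nat.mul_le_mul_right _ h2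
        _ = B ^ (k + 1) := by ring
    omega

theorem sumD_dg (b : ℕ) (D : ℕ → ℕ) (hD : ∀ k, D k < 2 ^ (b + 1)) (N n k : ℕ) (hk : k < n) (hn : n ≤ N) :
    dg b k ((∑ i ∈ Finset.range N, D i * (2 ^ (b + 1)) ^ i) % (2 ^ (b + 1)) ^ n) = D k := by
  set B := 2 ^ (b + 1) with hB
  have hB0 : 0 < B := by positivity
  set S := ∑ i ∈ Finset.range N, D i * B ^ i with hS
  show (S % B ^ n) >>> ((b + 1) * k) % 2 ^ (b + 1) = D k
  rw [Nat.shiftRight_eq_div_pow, pow_mul, ← hB]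
  obtain ⟨r, hr⟩ : ∃ r, n = k + (r + 1) := ⟨n - k - 1, by omega⟩
  have e1 : (S % B ^ n) / B ^ k = S / B ^ k % B ^ (r + 1) := by
    rw [hr, pow_add, Nat.mod_mul_right_div_self]
  rw [e1, Nat.mod_mod_of_dvd _ (dvd_pow_self B (by omega))]
  obtain ⟨N', hN'⟩ : ∃ N', N = k + (N' + 1) := ⟨N - k - 1, by omega⟩
  have e2 : S = ∑ i ∈ Finset.range k, D i * B ^ i + B ^ k * (D k + B * ∑ i ∈ Finset.range N', D (k + (i + 1)) * B ^ i) := by
    rw [hS, hN', Finset.sum_range_add, Finset.sum_range_succ', mul_add, Finset.mul_sum, Finset.mul_sum]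
    rw [add_comm (∑ i ∈ Finset.range N', D (k + (i + 1)) * B ^ (k + (i + 1)))]
    simp only [add_zero]
    congr 1
    congr 1
    · ring
    · refine Finset.sum_congr rfl fun i _ => ?_
      rw [pow_add, pow_succ]
      ring
  have h3 := sumD_lt b D hD k
  rw [e2, Nat.add_mul_div_left _ _ (by positivity), Nat.div_eq_of_lt h3, zero_add, Nat.add_mul_mod_self_left,
    Nat.mod_eq_of_lt (hD k)]

/-- one digit -/
def dig (b N X u v : ℕ) : ℕ :=
  bif Nat.ble v (Nat.add N u) then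
    (bif Nat.ble (Nat.sub (Nat.add N u) v) (Nat.mul 2 N) then dg b (Nat.sub (Nat.add N u) v) X else Nat.pow 2 b)
  else Nat.pow 2 b

theorem dig_g2 (b N X u v : ℕ) : (g2 b N X u v : ℂ) = (dig b N X u v : ℂ) - 2 ^ b := by
  unfold g2 dig
  have e1 : ∀ k : ℕ, ((dgI b k X : ℤ) : ℂ) = (dg b k X : ℂ) - 2 ^ b := by
    intro k
    unfold dgI
    rw [Int.subNatNat_eq_coe]
    show (((dg b k X : ℤ) - ((2 ^ b : ℕ) : ℤ) : ℤ) : ℂ) = _
    push_cast
    rfl
  have e2 : (((Nat.pow 2 b : ℕ)) : ℂ) = 2 ^ b := by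
    show (((2 ^ b : ℕ)) : ℂ) = 2 ^ b
    push_cast
    rfl
  cases Nat.ble v (Nat.add N u) with
  | false => simp only [cond_false]; rw [e2]; simp
  | true =>
    simp only [cond_true]
    cases Nat.ble (Nat.sub (Nat.add N u) v) (Nat.mul 2 N) with
    | false => simp only [cond_false]; rw [e2]; simp
    | true => simp only [cond_true]; exact e1 _

theorem dig_lt (b N X u v : ℕ) : dig b N X u v < 2 ^ (b + 1) := by
  unfold dig
  have h1 : ∀ k, dg b k X < 2 ^ (b + 1) := fun k => Nat.mod_lt _ (Nat.two_pow_pos _)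
  have h2 : Nat.pow 2 b < 2 ^ (b + 1) := Nat.pow_lt_pow_right (by norm_num) (by omega)
  cases Nat.ble v (Nat.add N u) with
  | false => exact h2
  | true =>
    cases Nat.ble (Nat.sub (Nat.add N u) v) (Nat.mul 2 N) with
    | false => exact h2
    | true => exact h1 _

def hdF : List FP → FP
  | [] => ⟨0, 0, 0⟩
  | a :: _ => a
def tl3 : List FP → List FP
  | _ :: _ :: _ :: l => l
  | _ => []

theorem hdF_eq (l : List FP) : hdF l = ntF l 0 := by cases l <;> rfl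
theorem tl3_eq (l : List FP) : tl3 l = l.drop 3 := by
  rcases l with _ | ⟨a, _ | ⟨b, _ | ⟨c, l⟩⟩⟩ <;> rfl

/-- the walk along the list: one digit of every third polynomial -/
def wk (b du dv Z B3 : ℕ) (X : FP → ℕ) : ℕ → ℕ → ℕ → List FP → ℕ
  | 0, _, _, _ => 0
  | c + 1, u, v, L => Nat.add (Nat.add (dig b (hdF L).N (X (hdF L)) u v) Z)
      (Nat.mul B3 (wk b du dv Z B3 X c (Nat.add u du) (Nat.add v dv) (tl3 L)))

/-- the digits of the walk -/
def DD (b du dv : ℕ) (X : FP → ℕ) (F : List FP) (i u v k : ℕ) : ℕ :=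
  if k % 3 = 0 then dig b (ntF F (i + k)).N (X (ntF F (i + k))) (u + k / 3 * du) (v + k / 3 * dv) else 2 ^ b

theorem wk_eq (b du dv : ℕ) (X : FP → ℕ) (F : List FP) : ∀ c i u v : ℕ,
    wk b du dv (2 ^ b * 2 ^ (b + 1) + 2 ^ b * (2 ^ (b + 1)) ^ 2) ((2 ^ (b + 1)) ^ 3) X c u v (F.drop i) =
      ∑ k ∈ Finset.range (3 * c), DD b du dv X F i u v k * (2 ^ (b + 1)) ^ k
  | 0, i, u, v => by simp [wk]
  | c + 1, i, u, v => by
    have e3 : 3 * (c + 1) = 3 * c + 1 + 1 + 1 := by ring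
    rw [e3, Finset.sum_range_succ', Finset.sum_range_succ', Finset.sum_range_succ']
    have ih := wk_eq b du dv X F c (i + 3) (u + du) (v + dv)
    show dig b (hdF (F.drop i)).N (X (hdF (F.drop i))) u v + (2 ^ b * 2 ^ (b + 1) + 2 ^ b * (2 ^ (b + 1)) ^ 2) +
      (2 ^ (b + 1)) ^ 3 * wk b du dv _ _ X c (u + du) (v + dv) (tl3 (F.drop i)) = _
    rw [tl3_eq, List.drop_drop, hdF_eq, ntF_drop, ih, Finset.mul_sum]
    have d0 : DD b du dv X F i u v 0 = dig b (ntF F (i + 0)).N (X (ntF F (i + 0))) u v := by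
      unfold DD
      rw [if_pos rfl]
      simp
    have d1 : DD b du dv X F i u v (0 + 1) = 2 ^ b := by
      unfold DD
      rw [if_neg (by norm_num)]
    have d2 : DD b du dv X F i u v (0 + 1 + 1) = 2 ^ b := by
      unfold DD
      rw [if_neg (by norm_num)]
    have d3 : ∀ k, DD b du dv X F i u v (k + 1 + 1 + 1) = DD b du dv X F (i + 3) (u + du) (v + dv) k := by
      intro k
      unfold DD
      have h1 : (k + 1 + 1 + 1) % 3 = k % 3 := by omega
      have h2 : (k + 1 + 1 + 1) / 3 = k / 3 + 1 := by omega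
      have h3 : i + (k + 1 + 1 + 1) = i + 3 + k := by ring
      rw [h1, h2, h3]
      have h4 : u + (k / 3 + 1) * du = u + du + k / 3 * du := by ring
      have h5 : v + (k / 3 + 1) * dv = v + dv + k / 3 * dv := by ring
      rw [h4, h5]
    rw [d0, d1, d2]
    simp_rw [d3]
    rw [add_comm (∑ k ∈ Finset.range (3 * c), _ + _ * _ + _ * _) _]
    have e4 : ∀ k, DD b du dv X F (i + 3) (u + du) (v + dv) k * (2 ^ (b + 1)) ^ (k + 1 + 1 + 1) =
        (2 ^ (b + 1)) ^ 3 * (DD b du dv X F (i + 3) (u + du) (v + dv) k * (2 ^ (b + 1)) ^ k) := by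
      intro k
      ring
    simp_rw [e4]
    ring

/-! ## Rows -/

/-- coefficientwise to functions -/
theorem ap_of_cc (b s e : ℕ) (z : FP) (F : ℤ → ℂ) (hw : wf b z = true)
    (h : ∀ k, k < 2 * z.N + 1 → ‖cc b z k - (2 ^ s : ℂ) * F ((k : ℤ) - z.N)‖ ≤ e) :
    Ap b s z (Nat.mul (len z.N) e) (fun t => ∑ n ∈ Finset.Icc (-(z.N : ℤ)) z.N, F n * ee ((n : ℝ) * t)) := by
  refine ⟨hw, fun t => ?_⟩
  beta_reduce
  rw [V_eq_sum, sum_shift, Finset.mul_sum]
  have e1 : len z.N = 2 * z.N + 1 := rfl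
  rw [e1, ← Finset.sum_sub_distrib]
  refine (norm_sum_le _ _).trans ?_
  have key : ∀ k ∈ Finset.range (2 * z.N + 1), ‖cc b z k * ee (((k : ℝ) - z.N) * t) -
      (2 ^ s : ℂ) * (F ((k : ℤ) - z.N) * ee ((((k : ℤ) - z.N : ℤ) : ℝ) * t))‖ ≤ e := by
    intro k hk
    rw [Finset.mem_range] at hk
    have e2 : ee ((((k : ℤ) - z.N : ℤ) : ℝ) * t) = ee (((k : ℝ) - z.N) * t) := by
      congr 2
      push_cast
      rfl
    rw [e2]
    have e3 : cc b z k * ee (((k : ℝ) - z.N) * t) -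
        (2 ^ s : ℂ) * (F ((k : ℤ) - z.N) * ee (((k : ℝ) - z.N) * t)) =
        (cc b z k - (2 ^ s : ℂ) * F ((k : ℤ) - z.N)) * ee (((k : ℝ) - z.N) * t) := by ring
    rw [e3, norm_mul, norm_ee, mul_one]
    exact h k hk
  refine (Finset.sum_le_sum key).trans ?_
  rw [Finset.sum_const, Finset.card_range, nsmul_eq_mul]
  show ((2 * z.N + 1 : ℕ) : ℝ) * e ≤ (((2 * z.N + 1) * e : ℕ) : ℝ)
  push_cast
  exact le_rfl

/-- `k0 = (m - (W - M)) mod 3` -/
def k0F (W M m : ℕ) : ℕ := Nat.mod (Nat.add m (Nat.mul 2 (Nat.sub W M))) 3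
/-- the packed component: `m` is the fixed shifted index -/
def rwX (b W M Q : ℕ) (F : List FP) (m : ℕ) (X : FP → ℕ) (u v du dv k0 : ℕ) : ℕ :=
  Nat.mod (Nat.add (of b k0) (Nat.mul (Nat.pow (Nat.pow 2 (Nat.succ b)) k0)
    (wk b du dv (Nat.add (Nat.mul (Nat.pow 2 b) (Nat.pow 2 (Nat.succ b)))
      (Nat.mul (Nat.pow 2 b) (Nat.pow (Nat.pow 2 (Nat.succ b)) 2))) (Nat.pow (Nat.pow 2 (Nat.succ b)) 3) X
      (Nat.succ (Nat.div (Nat.sub (Nat.mul 2 M) k0) 3)) u v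
      (F.drop (Nat.sub (Nat.add (Nat.add m (Nat.add (Nat.sub W M) k0)) Q) (Nat.mul 2 W))))))
    (Nat.pow (Nat.pow 2 (Nat.succ b)) (len M))

/-- the digits of `rwX` -/
theorem rwX_dg (b W M Q : ℕ) (F : List FP) (m : ℕ) (X : FP → ℕ) (u v du dv k0 : ℕ) :
    rwX b W M Q F m X u v du dv k0 < (2 ^ (b + 1)) ^ (len M) ∧ ∀ k, k < 2 * M + 1 →
      dg b k (rwX b W M Q F m X u v du dv k0) = if k < k0 then 2 ^ b else
        DD b du dv X F (m + (W - M + k0) + Q - 2 * W) u v (k - k0) := by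
  refine ⟨Nat.mod_lt _ (by
    show 0 < (2 ^ (b + 1)) ^ (len M)
    positivity), fun k hk => ?_⟩
  set c := (2 * M - k0) / 3 + 1 with hc
  set i := m + (W - M + k0) + Q - 2 * W with hi
  set D : ℕ → ℕ := fun k => if k < k0 then 2 ^ b else DD b du dv X F i u v (k - k0) with hD
  have hDlt : ∀ k, D k < 2 ^ (b + 1) := by
    intro k
    have h2 : 2 ^ b < 2 ^ (b + 1) := Nat.pow_lt_pow_right (by norm_num) (by omega)
    simp only [hD]
    split_ifs
    · exact h2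
    · unfold DD
      split_ifs
      · exact dig_lt _ _ _ _ _
      · exact h2
  have e1 : rwX b W M Q F m X u v du dv k0 =
      (∑ j ∈ Finset.range (k0 + 3 * c), D j * (2 ^ (b + 1)) ^ j) % (2 ^ (b + 1)) ^ (len M) := by
    show (of b k0 + (2 ^ (b + 1)) ^ k0 * wk b du dv (2 ^ b * 2 ^ (b + 1) + 2 ^ b * (2 ^ (b + 1)) ^ 2)
      ((2 ^ (b + 1)) ^ 3) X c u v (F.drop i)) % (2 ^ (b + 1)) ^ (len M) = _
    rw [wk_eq, Finset.sum_range_add, Finset.mul_sum]
    congr 2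
    · rw [of_eq]
      have hgs : ∀ n, gs (2 ^ (b + 1)) n = ∑ j ∈ Finset.range n, (2 ^ (b + 1)) ^ j := by
        intro n
        induction n with
        | zero => simp [gs]
        | succ n ih =>
          rw [Finset.sum_range_succ']
          show 1 + 2 ^ (b + 1) * gs (2 ^ (b + 1)) n = _
          rw [ih, Finset.mul_sum, pow_zero, add_comm]
          congr 1
          refine Finset.sum_congr rfl fun j _ => ?_
          rw [pow_succ]
          ring
      rw [hgs, Finset.mul_sum]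
      refine Finset.sum_congr rfl fun j hj => ?_
      simp only [hD]
      rw [if_pos (Finset.mem_range.1 hj)]
    · refine Finset.sum_congr rfl fun j _ => ?_
      simp only [hD]
      rw [if_neg (by omega), Nat.add_sub_cancel_left, pow_add]
      ring
  rw [e1, sumD_dg b D hDlt (k0 + 3 * c) (len M) k (by rw [len_eq]; omega) (by rw [len_eq]; omega)]

/-- row `m = m' - W` of the kernel, window `|n| <= M` (fast) -/
def RowF (b W M Q : ℕ) (F : List FP) (m : ℕ) : FP :=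
  ⟨M, rwX b W M Q F m FP.x (Nat.div (Nat.sub (Nat.add (Nat.sub W M) (k0F W M m)) m) 3)
      (Nat.div (Nat.sub m (Nat.add (Nat.sub W M) (k0F W M m))) 3) 1 0 (k0F W M m),
    rwX b W M Q F m FP.y (Nat.div (Nat.sub (Nat.add (Nat.sub W M) (k0F W M m)) m) 3)
      (Nat.div (Nat.sub m (Nat.add (Nat.sub W M) (k0F W M m))) 3) 1 0 (k0F W M m)⟩
/-- column `n = n' - W` of the kernel, window `|m| <= M` (fast) -/
def ColF (b W M Q : ℕ) (F : List FP) (n : ℕ) : FP :=
  ⟨M, rwX b W M Q F n FP.x (Nat.div (Nat.sub n (Nat.add (Nat.sub W M) (k0F W M n))) 3)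
      (Nat.div (Nat.sub (Nat.add (Nat.sub W M) (k0F W M n)) n) 3) 0 1 (k0F W M n),
    rwX b W M Q F n FP.y (Nat.div (Nat.sub n (Nat.add (Nat.sub W M) (k0F W M n))) 3)
      (Nat.div (Nat.sub (Nat.add (Nat.sub W M) (k0F W M n)) n) 3) 0 1 (k0F W M n)⟩

/-- one entry from the list -/
theorem ent_F {b s : ℕ} {K : KD} {e : ℕ} {F : List FP} {Q : ℕ} {ph : ℝ} (T : Tab2 b s K e F Q ph) {m n : ℤ}
    (hQ : |m + n| ≤ (Q : ℤ)) (h3 : (3 : ℤ) ∣ n - m) {i u v : ℕ} (hi : (i : ℤ) = m + n + Q)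
    (hj : (n - m) / 3 = (u : ℤ) - v) :
    ‖(((dig b (ntF F i).N (ntF F i).x u v : ℂ) - 2 ^ b) +
      Complex.I * ((dig b (ntF F i).N (ntF F i).y u v : ℂ) - 2 ^ b)) -
      (2 ^ s : ℂ) * kk ((K.dn : ℝ) / K.D) ((K.kn : ℝ) / K.D) ph m n‖ ≤ e := by
  have h1 := T.ap (m + n) hQ
  have hi' : (m + n + Q).toNat = i := by omega
  rw [hi'] at h1
  obtain ⟨C, hC⟩ := YY_BM ((K.dn : ℝ) / K.D) ((K.kn : ℝ) / K.D) ph (m + n)
  have h2 : AP b s ⟨ntF F i, e⟩ (YY ((K.dn : ℝ) / K.D) ((K.kn : ℝ) / K.D) ph (m + n)) := h1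
  have h4 := Helper30.SH.coef_le hC h2 ((u : ℤ) - v)
  rw [← hj, fc_YY _ _ _ rfl h3, hj] at h4
  have h5 := g2_cf b (ntF F i) u v
  rw [dig_g2, dig_g2] at h5
  rw [h5] at h4
  have hs : (0 : ℝ) < 2 ^ s := by positivity
  set X := (((dig b (ntF F i).N (ntF F i).x u v : ℂ) - 2 ^ b) +
      Complex.I * ((dig b (ntF F i).N (ntF F i).y u v : ℂ) - 2 ^ b)) with hX
  have h6 : (2 ^ s : ℂ) ≠ 0 := pow_ne_zero _ two_ne_zero
  have e1 : X - (2 ^ s : ℂ) * kk ((K.dn : ℝ) / K.D) ((K.kn : ℝ) / K.D) ph m n =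
      -(2 ^ s : ℂ) * (kk ((K.dn : ℝ) / K.D) ((K.kn : ℝ) / K.D) ph m n - X / 2 ^ s) := by
    field_simp
    ring
  rw [e1, norm_mul, norm_neg, norm_pow, Complex.norm_ofNat]
  calc (2 : ℝ) ^ s * ‖kk ((K.dn : ℝ) / K.D) ((K.kn : ℝ) / K.D) ph m n - X / 2 ^ s‖
      ≤ 2 ^ s * ((e : ℝ) / 2 ^ s) := by gcongr
    _ = e := by field_simp

theorem kk_zero (d k ph : ℝ) {m n : ℤ} (h : ¬ (3 : ℤ) ∣ n - m) : kk d k ph m n = 0 := by
  unfold kk
  split_ifs with h1 h2
  · exact absurd ⟨0, by omega⟩ h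
  · rfl
  · unfold CS
    rw [if_neg h, mul_zero]

/-- **fast rows** -/
theorem RowF_AP {b s : ℕ} {K : KD} {e : ℕ} {F : List FP} {Q : ℕ} {ph : ℝ} (T : Tab2 b s K e F Q ph) {W M : ℕ}
    (hM : M ≤ W) {m' : ℕ} {m : ℤ} (hm : m = (m' : ℤ) - W) (hQ : |m| + M ≤ (Q : ℤ)) :
    Ap b s (RowF b W M Q F m') (Nat.mul (len M) e) (fun t => ∑ n ∈ Finset.Icc (-(M : ℤ)) M,
      kk ((K.dn : ℝ) / K.D) ((K.kn : ℝ) / K.D) ph m n * ee ((n : ℝ) * t)) := by
  have hk0 : k0F W M m' = (m' + 2 * (W - M)) % 3 := rfl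
  set k0 := k0F W M m' with hk
  have hk2 : k0 ≤ 2 := by omega
  set u := (W - M + k0 - m') / 3 with hu
  set v := (m' - (W - M + k0)) / 3 with hv
  obtain ⟨w1, a1⟩ := rwX_dg b W M Q F m' FP.x u v 1 0 k0
  obtain ⟨w2, a2⟩ := rwX_dg b W M Q F m' FP.y u v 1 0 k0
  have hw : wf b (RowF b W M Q F m') = true := wf_mk b M _ _ w1 w2
  refine ap_of_cc b s e (RowF b W M Q F m') (fun n => kk ((K.dn : ℝ) / K.D) ((K.kn : ℝ) / K.D) ph m n) hw ?_
  intro k hk3
  have hk3 : k < 2 * M + 1 := hk3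
  show ‖(((dg b k (rwX b W M Q F m' FP.x u v 1 0 k0) : ℂ) - 2 ^ b) + Complex.I *
    ((dg b k (rwX b W M Q F m' FP.y u v 1 0 k0) : ℂ) - 2 ^ b)) - (2 ^ s : ℂ) *
      kk ((K.dn : ℝ) / K.D) ((K.kn : ℝ) / K.D) ph m ((k : ℤ) - M)‖ ≤ e
  rw [a1 k hk3, a2 k hk3]
  have he0 : (0 : ℝ) ≤ e := Nat.cast_nonneg e
  have hmQ := abs_le.1 (show |m| ≤ (Q : ℤ) - M by omega)
  by_cases hc : k < k0
  · rw [if_pos hc, if_pos hc, kk_zero]
    · push_cast
      simp
    · omega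
  · rw [if_neg hc, if_neg hc]
    by_cases h3 : (k - k0) % 3 = 0
    · unfold DD
      rw [if_pos h3, if_pos h3]
      have := ent_F T (m := m) (n := (k : ℤ) - M) (i := m' + (W - M + k0) + Q - 2 * W + (k - k0))
        (u := u + (k - k0) / 3 * 1) (v := v + (k - k0) / 3 * 0) (by rw [abs_le]; omega) (by omega) (by omega)
        (by omega)
      exact this
    · unfold DD
      rw [if_neg h3, if_neg h3, kk_zero]
      · push_cast
        simp
      · omega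

/-- **fast columns** -/
theorem ColF_AP {b s : ℕ} {K : KD} {e : ℕ} {F : List FP} {Q : ℕ} {ph : ℝ} (T : Tab2 b s K e F Q ph) {W M : ℕ}
    (hM : M ≤ W) {n' : ℕ} {n : ℤ} (hn : n = (n' : ℤ) - W) (hQ : |n| + M ≤ (Q : ℤ)) :
    Ap b s (ColF b W M Q F n') (Nat.mul (len M) e) (fun t => ∑ m ∈ Finset.Icc (-(M : ℤ)) M,
      kk ((K.dn : ℝ) / K.D) ((K.kn : ℝ) / K.D) ph m n * ee ((m : ℝ) * t)) := by
  have hk0 : k0F W M n' = (n' + 2 * (W - M)) % 3 := rfl
  set k0 := k0F W M n' with hk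
  have hk2 : k0 ≤ 2 := by omega
  set u := (n' - (W - M + k0)) / 3 with hu
  set v := (W - M + k0 - n') / 3 with hv
  obtain ⟨w1, a1⟩ := rwX_dg b W M Q F n' FP.x u v 0 1 k0
  obtain ⟨w2, a2⟩ := rwX_dg b W M Q F n' FP.y u v 0 1 k0
  have hw : wf b (ColF b W M Q F n') = true := wf_mk b M _ _ w1 w2
  refine ap_of_cc b s e (ColF b W M Q F n') (fun m => kk ((K.dn : ℝ) / K.D) ((K.kn : ℝ) / K.D) ph m n) hw ?_
  intro k hk3
  have hk3 : k < 2 * M + 1 := hk3
  show ‖(((dg b k (rwX b W M Q F n' FP.x u v 0 1 k0) : ℂ) - 2 ^ b) + Complex.I *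
    ((dg b k (rwX b W M Q F n' FP.y u v 0 1 k0) : ℂ) - 2 ^ b)) - (2 ^ s : ℂ) *
      kk ((K.dn : ℝ) / K.D) ((K.kn : ℝ) / K.D) ph ((k : ℤ) - M) n‖ ≤ e
  rw [a1 k hk3, a2 k hk3]
  have he0 : (0 : ℝ) ≤ e := Nat.cast_nonneg e
  have hmQ := abs_le.1 (show |n| ≤ (Q : ℤ) - M by omega)
  by_cases hc : k < k0
  · rw [if_pos hc, if_pos hc, kk_zero]
    · push_cast
      simp
    · omega
  · rw [if_neg hc, if_neg hc]
    by_cases h3 : (k - k0) % 3 = 0
    · unfold DD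
      rw [if_pos h3, if_pos h3]
      have := ent_F T (m := (k : ℤ) - M) (n := n) (i := n' + (W - M + k0) + Q - 2 * W + (k - k0))
        (u := u + (k - k0) / 3 * 0) (v := v + (k - k0) / 3 * 1) (by rw [abs_le]; omega) (by omega) (by omega)
        (by omega)
      exact this
    · unfold DD
      rw [if_neg h3, if_neg h3, kk_zero]
      · push_cast
        simp
      · omega

end Pool.Agent.Helper31.KcF
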