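import Pool.Agent.Helper31.NS.KcF

/-!
# Project RC, SHARP cells: rows and columns of the kernel as packed polynomials

`KRow m` approximates `sum_n kk m n ee (n t)`, `KCol n` approximates `sum_m kk m n ee (m t)`.
-/

set_option autoImplicit false

open MeasureTheory Set Filter Topology

namespace Pool.Agent.Helper31.KcF

open Helper49.LT hiding sg
open Helper95.RC
open Pool.Agent.Helper99.RC
open Helper54.RC.Fast hiding ps

/-- the list `f i, f (i+1), ...` of length `c` -/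
def mkL (f : ℕ → ℤ) : ℕ → ℕ → List ℤ
  | 0, _ => []
  | c + 1, i => f i :: mkL f c (Nat.succ i)

theorem mkL_length (f : ℕ → ℤ) : ∀ c i : ℕ, (mkL f c i).length = c
  | 0, _ => rfl
  | c + 1, i => by rw [mkL, List.length_cons, mkL_length f c]

theorem evr_mkL (f : ℕ → ℤ) (x : ℂ) : ∀ c i : ℕ, Helper76.RC.TPoly.evr x (mkL f c i) =
    ∑ k ∈ Finset.range c, (f (i + k) : ℂ) * x ^ k
  | 0, i => by simp [mkL, Helper76.RC.TPoly.evr]
  | c + 1, i => by
    rw [mkL, Finset.sum_range_succ']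
    show (f i : ℂ) + x * Helper76.RC.TPoly.evr x (mkL f c (i + 1)) = _
    rw [evr_mkL f x c (i + 1), Finset.mul_sum, add_zero, pow_zero, mul_one, add_comm]
    congr 1
    refine Finset.sum_congr rfl fun k _ => ?_
    have : i + 1 + k = i + (k + 1) := by ring
    rw [this, pow_succ]
    ring

theorem sum_shift (M : ℕ) (g : ℤ → ℂ) : ∑ n ∈ Finset.Icc (-(M : ℤ)) M, g n =
    ∑ k ∈ Finset.range (2 * M + 1), g ((k : ℤ) - M) := by
  refine Finset.sum_nbij' (fun n : ℤ => (n + M).toNat) (fun k : ℕ => (k : ℤ) - M) ?_ ?_ ?_ ?_ ?_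
  · intro n hn
    rw [Finset.mem_Icc] at hn
    rw [Finset.mem_range]
    omega
  · intro k hk
    rw [Finset.mem_range] at hk
    rw [Finset.mem_Icc]
    omega
  · intro n hn
    rw [Finset.mem_Icc] at hn
    show (((n + M).toNat : ℕ) : ℤ) - M = n
    omega
  · intro k _
    show ((k : ℤ) - M + M).toNat = k
    simp
  · intro n hn
    rw [Finset.mem_Icc] at hn
    show g n = g ((((n + M).toNat : ℕ) : ℤ) - M)
    congr 1
    omega

/-- a packed polynomial from two functions of the shifted index -/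
def fromF (b W M er : ℕ) (f g : ℕ → ℤ) : PF :=
  ⟨ofL b M (mkL f (len M) (Nat.sub W M)) (mkL g (len M) (Nat.sub W M)), er⟩

theorem rng_of (b : ℕ) (f : ℕ → ℤ) : ∀ c i : ℕ, (∀ k, i ≤ k → k < i + c → (f k).natAbs < 2 ^ b) →
    rng b (mkL f c i) = true
  | 0, _, _ => rfl
  | c + 1, i, h => by
    rw [mkL]
    unfold rng
    have h1 : Nat.ble (Nat.succ (f i).natAbs) (Nat.pow 2 b) = true := Nat.ble_eq_true_of_le (h i le_rfl (by omega))
    rw [h1, cond_true]
    exact rng_of b f c (i + 1) (fun k h2 h3 => h k (by omega) (by omega))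

theorem fromF_sound (b s W M e : ℕ) (f g : ℕ → ℤ) (F : ℤ → ℂ) (hW : M ≤ W)
    (hF : ∀ n : ℤ, ‖F n‖ ≤ 4) (hb : 4 * 2 ^ s + e < 2 ^ b)
    (h : ∀ (n' : ℕ) (n : ℤ), n = (n' : ℤ) - W → |n| ≤ (M : ℤ) →
      ‖((f n' : ℂ) + Complex.I * (g n' : ℂ)) - (2 ^ s : ℂ) * F n‖ ≤ e) :
    AP b s (fromF b W M (Nat.mul (len M) e) f g)
      (fun t => ∑ n ∈ Finset.Icc (-(M : ℤ)) M, F n * ee ((n : ℝ) * t)) := by
  have hbd : ∀ k : ℕ, W - M ≤ k → k < W - M + len M → (f k).natAbs < 2 ^ b ∧ (g k).natAbs < 2 ^ b := by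
    intro k h1 h2
    have e1 : len M = 2 * M + 1 := rfl
    rw [e1] at h2
    have h3 := h k ((k : ℤ) - W) rfl (by rw [abs_le]; omega)
    have h4 := hF ((k : ℤ) - W)
    have hs : (0 : ℝ) < 2 ^ s := by positivity
    have h5 : ‖((f k : ℂ) + Complex.I * (g k : ℂ))‖ ≤ 4 * 2 ^ s + e := by
      have e2 : ((f k : ℂ) + Complex.I * (g k : ℂ)) = (((f k : ℂ) + Complex.I * (g k : ℂ)) -
        (2 ^ s : ℂ) * F ((k : ℤ) - W)) + (2 ^ s : ℂ) * F ((k : ℤ) - W) := by ring
      rw [e2]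
      refine (norm_add_le _ _).trans ?_
      rw [norm_mul, norm_pow, Complex.norm_ofNat]
      nlinarith
    have h6 : (4 * 2 ^ s + e : ℝ) < 2 ^ b := by exact_mod_cast hb
    have r1 := Complex.abs_re_le_norm ((f k : ℂ) + Complex.I * (g k : ℂ))
    have r2 := Complex.abs_im_le_norm ((f k : ℂ) + Complex.I * (g k : ℂ))
    have q1 : ((f k : ℂ) + Complex.I * (g k : ℂ)).re = (f k : ℝ) := by simp
    have q2 : ((f k : ℂ) + Complex.I * (g k : ℂ)).im = (g k : ℝ) := by simp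
    rw [q1] at r1
    rw [q2] at r2
    have c1 : |(f k : ℝ)| < 2 ^ b := by linarith
    have c2 : |(g k : ℝ)| < 2 ^ b := by linarith
    constructor
    · have : (((f k).natAbs : ℕ) : ℝ) < ((2 ^ b : ℕ) : ℝ) := by
        rw [Nat.cast_natAbs]
        push_cast
        exact c1
      exact_mod_cast this
    · have : (((g k).natAbs : ℕ) : ℝ) < ((2 ^ b : ℕ) : ℝ) := by
        rw [Nat.cast_natAbs]
        push_cast
        exact c2
      exact_mod_cast this
  obtain ⟨w1, w2⟩ := ofL_sound b M (mkL f (len M) (Nat.sub W M)) (mkL g (len M) (Nat.sub W M))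
    (mkL_length _ _ _) (mkL_length _ _ _) (rng_of b f _ _ fun k h1 h2 => (hbd k h1 h2).1)
    (rng_of b g _ _ fun k h1 h2 => (hbd k h1 h2).2)
  refine ⟨w1, fun t => ?_⟩
  show ‖V b (ofL b M (mkL f (len M) (Nat.sub W M)) (mkL g (len M) (Nat.sub W M))) t - _‖ ≤ (((len M) * e : ℕ) : ℝ)
  rw [w2 t]
  unfold Helper76.RC.TPoly.T Helper76.RC.TPoly.TP.ev
  simp only
  rw [evr_mkL, evr_mkL, sum_shift, Finset.mul_sum, Finset.mul_sum, ← Finset.sum_add_distrib, Finset.mul_sum]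
  have e1 : len M = 2 * M + 1 := rfl
  rw [e1, ← Finset.sum_sub_distrib]
  refine (norm_sum_le _ _).trans ?_
  have key : ∀ k ∈ Finset.range (2 * M + 1),
      ‖ee (-((M : ℝ) * t)) * ((f (Nat.sub W M + k) : ℂ) * ee t ^ k + Complex.I * ((g (Nat.sub W M + k) : ℂ) * ee t ^ k)) -
        (2 ^ s : ℂ) * (F ((k : ℤ) - M) * ee ((((k : ℤ) - M : ℤ) : ℝ) * t))‖ ≤ e := by
    intro k hk
    rw [Finset.mem_range] at hk
    have h1 := h (Nat.sub W M + k) ((k : ℤ) - M) (by
      have : Nat.sub W M = W - M := rfl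
      rw [this]
      omega) (by rw [abs_le]; omega)
    have e2 : ee ((((k : ℤ) - M : ℤ) : ℝ) * t) = ee (-((M : ℝ) * t)) * ee t ^ k := by
      rw [← Helper76.RC.TPoly.ee_nat, ← ee_add]
      congr 1
      push_cast
      ring
    rw [e2]
    have e3 : ee (-((M : ℝ) * t)) * ((f (Nat.sub W M + k) : ℂ) * ee t ^ k +
        Complex.I * ((g (Nat.sub W M + k) : ℂ) * ee t ^ k)) -
        (2 ^ s : ℂ) * (F ((k : ℤ) - M) * (ee (-((M : ℝ) * t)) * ee t ^ k)) =
        (((f (Nat.sub W M + k) : ℂ) + Complex.I * (g (Nat.sub W M + k) : ℂ)) - (2 ^ s : ℂ) * F ((k : ℤ) - M)) *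
          (ee (-((M : ℝ) * t)) * ee t ^ k) := by ring
    rw [e3, norm_mul, norm_mul, norm_pow, norm_ee, norm_ee, one_pow, mul_one, mul_one]
    exact h1
  refine (Finset.sum_le_sum key).trans ?_
  rw [Finset.sum_const, Finset.card_range, nsmul_eq_mul]
  push_cast
  exact le_rfl

theorem CS_le (d k ph : ℝ) (m n : ℤ) : ‖CS d k ph m n‖ ≤ 1 := by
  unfold CS
  split_ifs
  · rw [norm_mul, norm_mul, norm_ee, norm_ee, one_mul, one_mul, Complex.norm_real, Real.norm_eq_abs]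
    exact Helper31.Bes.abs_J_le_one _ _
  · simp

theorem kk_le {P : KP} {K : KD} {W e : ℕ} {L : List (List PF)} {Q : ℕ} {ph : ℝ} (T : Tab P K W e L Q ph)
    (m n : ℤ) : ‖kk ((K.dn : ℝ) / K.D) ((K.kn : ℝ) / K.D) ph m n‖ ≤ 4 := by
  unfold kk
  split_ifs with h1 h2
  · have hD : (0 : ℝ) < K.D := by exact_mod_cast T.D
    have h3 : |(K.dn : ℝ)| ≤ 2 * K.D := by
      have := T.hd
      have h4 : ((K.dn.natAbs : ℕ) : ℝ) ≤ ((2 * K.D : ℕ) : ℝ) := by exact_mod_cast this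
      rw [Nat.cast_natAbs] at h4
      push_cast at h4
      exact h4
    rw [norm_mul, Complex.norm_I, mul_one, norm_neg, norm_mul, Complex.norm_real, Real.norm_eq_abs, abs_div,
      abs_of_pos hD, Complex.norm_ofNat]
    have : |(K.dn : ℝ)| / K.D ≤ 2 := by
      rw [div_le_iff₀ hD]
      exact h3
    linarith
  · simp
  · rw [norm_mul, Complex.norm_real, Real.norm_eq_abs, abs_div]
    have h3 : (1 : ℝ) ≤ |((m + n : ℤ) : ℝ)| := by
      have : 1 ≤ |m + n| := Int.one_le_abs h1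
      exact_mod_cast this
    have h4 : |(4 : ℝ)| / |((m + n : ℤ) : ℝ)| ≤ 4 := by
      rw [abs_of_pos (by norm_num : (0 : ℝ) < 4), div_le_iff₀ (by linarith)]
      linarith
    calc |(4 : ℝ)| / |((m + n : ℤ) : ℝ)| * ‖CS _ _ ph m n‖ ≤ 4 * 1 :=
          mul_le_mul h4 (CS_le _ _ _ _ _) (norm_nonneg _) (by norm_num)
      _ = 4 := by norm_num

/-- row `m = m' - W` of the kernel in the window `|n| <= M` -/
def KRow (P : KP) (K : KD) (W e M : ℕ) (L : List (List PF)) (m' : ℕ) : PF :=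
  fromF P.b W M (Nat.mul (len M) e) (kre P.b W L m') (kim P.b W (d2U P K) L m')

/-- column `n = n' - W` of the kernel in the window `|m| <= M` -/
def KCol (P : KP) (K : KD) (W e M : ℕ) (L : List (List PF)) (n' : ℕ) : PF :=
  fromF P.b W M (Nat.mul (len M) e) (fun m' => kre P.b W L m' n') (fun m' => kim P.b W (d2U P K) L m' n')

theorem KRow_AP {P : KP} {K : KD} {W e : ℕ} {L : List (List PF)} {Q : ℕ} {ph : ℝ} (T : Tab P K W e L Q ph)
    {M : ℕ} (hM : M ≤ W) {m' : ℕ} {m : ℤ} (hm : m = (m' : ℤ) - W) (hQ : |m| + M ≤ (Q : ℤ)) :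
    AP P.b P.s (KRow P K W e M L m') (fun t => ∑ n ∈ Finset.Icc (-(M : ℤ)) M,
      kk ((K.dn : ℝ) / K.D) ((K.kn : ℝ) / K.D) ph m n * ee ((n : ℝ) * t)) := by
  refine fromF_sound P.b P.s W M e _ _ (fun n => kk ((K.dn : ℝ) / K.D) ((K.kn : ℝ) / K.D) ph m n) hM (fun n => kk_le T m n) T.hb ?_
  intro n' n hn hnM
  exact ker_err T hm hn (by
    have := abs_add_le m n
    omega)

theorem KCol_AP {P : KP} {K : KD} {W e : ℕ} {L : List (List PF)} {Q : ℕ} {ph : ℝ} (T : Tab P K W e L Q ph)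
    {M : ℕ} (hM : M ≤ W) {n' : ℕ} {n : ℤ} (hn : n = (n' : ℤ) - W) (hQ : |n| + M ≤ (Q : ℤ)) :
    AP P.b P.s (KCol P K W e M L n') (fun t => ∑ m ∈ Finset.Icc (-(M : ℤ)) M,
      kk ((K.dn : ℝ) / K.D) ((K.kn : ℝ) / K.D) ph m n * ee ((m : ℝ) * t)) := by
  refine fromF_sound P.b P.s W M e _ _ (fun m => kk ((K.dn : ℝ) / K.D) ((K.kn : ℝ) / K.D) ph m n) hM (fun m => kk_le T m n) T.hb ?_
  intro m' m hm hmM
  exact ker_err T hm hn (by
    have := abs_add_le m n
    omega)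

/-! ## The check of the table -/

/-- the table of the powers with fast access -/
def getL (P : KP) (K : KD) (n12 : ℕ) : List (List PF) :=
  match tabU P K with
  | some res => sfx n12 res.reverse
  | none => []

/-- the check of the list -/
def okR (e n12 Q : ℕ) (l : List PF) : Bool :=
  okEr e 0 l && (Nat.ble (Nat.succ Q) l.length && Nat.ble (Nat.succ Q) (Nat.mul 12 n12))

/-- the check of the table -/
def okTab (P : KP) (K : KD) (e n12 Q : ℕ) : Bool :=
  okU P K && (Nat.ble 2 e && Nat.ble K.dn.natAbs (Nat.mul 2 K.D) &&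
    Nat.ble (Nat.succ (Nat.add (Nat.mul 4 (Nat.pow 2 P.s)) e)) (Nat.pow 2 P.b)) &&
    match tabU P K with
    | some res => okR e n12 Q res.reverse
    | none => false

theorem okTab_sound (P : KP) (K : KD) (W e n12 Q : ℕ) (ph : ℝ)
    (hph : ee ph = -(((K.c : ℂ) + Complex.I * K.sn) / K.h)) (ho : okTab P K e n12 Q = true) :
    Tab P K W e (getL P K n12) Q ph := by
  unfold okTab at ho
  rw [Bool.and_eq_true, Bool.and_eq_true, Bool.and_eq_true, Bool.and_eq_true] at ho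
  obtain ⟨⟨h1, ⟨h2, h7⟩, h8⟩, h3⟩ := ho
  have h2 : 2 ≤ e := Nat.le_of_ble_eq_true h2
  have h7 : K.dn.natAbs ≤ 2 * K.D := Nat.le_of_ble_eq_true h7
  have h8 : 4 * 2 ^ P.s + e < 2 ^ P.b := Nat.le_of_ble_eq_true h8
  cases hres : tabU P K with
  | none => rw [hres] at h3; simp at h3
  | some res =>
    rw [hres] at h3
    have h3 : okR e n12 Q res.reverse = true := h3
    unfold okR at h3
    rw [Bool.and_eq_true, Bool.and_eq_true] at h3
    obtain ⟨h4, h5, h6⟩ := h3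
    have h5 : Q + 1 ≤ res.reverse.length := Nat.le_of_ble_eq_true h5
    have h6 : Q + 1 ≤ 12 * n12 := Nat.le_of_ble_eq_true h6
    have hL : getL P K n12 = sfx n12 res.reverse := by
      unfold getL
      rw [hres]
    have hget : ∀ q, q ≤ Q → res.reverse[q]? = some (nth (getL P K n12) q) := by
      intro q hq
      rw [hL, nth_eq n12 _ q (by omega)]
      exact nthP_get _ q (by omega)
    refine ⟨fun q hq => tabU_sound P K ph hph h1 res hres q _ (hget q hq), fun q hq => ?_, ?_, h2, h7, h8⟩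
    · have := okEr_sound e _ 0 q _ h4 (hget q hq)
      simpa using this
    · unfold okU at h1
      simp only [Bool.and_eq_true] at h1
      exact Nat.le_of_ble_eq_true h1.2.1

end Pool.Agent.Helper31.KcF
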